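import Pool.Agent.Q256.Tot.Base

set_option autoImplicit false

/-! The numbers `k (k + 1) ^ φ(7588 - k) + 1`. -/

namespace Pool.Agent.Q256.TotB

open Pool.Agent.Q256.Tot

/-- `k (k + 1) ^ φ(7588 - k) + 1` -/
def NN (k : ℕ) : ℕ := Nat.succ (Nat.mul k (Nat.pow (Nat.succ k) (tt 16 (Nat.sub 7588 k))))

theorem NN_eq (k : ℕ) (h : k < 7588) : NN k = k * (k + 1) ^ Nat.totient (7588 - k) + 1 := by
  have e : NN k = k * (k + 1) ^ tt 16 (7588 - k) + 1 := rfl
  rw [e, tt_eq 16 (7588 - k) (by omega) (by norm_num; omega) (by omega)]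

end Pool.Agent.Q256.TotB
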