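import Pool.Agent.Q256.TotB.Def

set_option autoImplicit false

/-! Fermat tests to the base 2 (part 0). -/

namespace Pool.Agent.Q256.TotB.P0

open Pool.Agent.Q256.Tot

def t106 : ftest (NN 106) 11 1983 = true := by decide +kernel
def t679 : ftest (NN 679) 13 4546 = true := by decide +kernel
def t706 : ftest (NN 706) 12 2557 = true := by decide +kernel
def t795 : ftest (NN 795) 13 8183 = true := by decide +kernel
def t819 : ftest (NN 819) 13 7014 = true := by decide +kernel
def t1143 : ftest (NN 1143) 13 6545 = true := by decide +kernel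
def t1284 : ftest (NN 1284) 12 4050 = true := by decide +kernel
def t1447 : ftest (NN 1447) 13 5084 = true := by decide +kernel
def t1501 : ftest (NN 1501) 13 5352 = true := by decide +kernel
def t1561 : ftest (NN 1561) 13 4458 = true := by decide +kernel
def t1770 : ftest (NN 1770) 12 3924 = true := by decide +kernel
def t2262 : ftest (NN 2262) 12 3710 = true := by decide +kernel
def t2682 : ftest (NN 2682) 12 3163 = true := by decide +kernel
def t2713 : ftest (NN 2713) 12 3424 = true := by decide +kernel
def t2930 : ftest (NN 2930) 12 3135 = true := by decide +kernel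
def t3324 : ftest (NN 3324) 12 2810 = true := by decide +kernel
def t3429 : ftest (NN 3429) 13 6106 = true := by decide +kernel
def t3924 : ftest (NN 3924) 12 2724 = true := by decide +kernel
def t4009 : ftest (NN 4009) 12 3569 = true := by decide +kernel
def t4412 : ftest (NN 4412) 12 2399 = true := by decide +kernel
def t4480 : ftest (NN 4480) 11 1312 = true := by decide +kernel
def t4790 : ftest (NN 4790) 12 2139 = true := by decide +kernel
def t4798 : ftest (NN 4798) 11 1103 = true := by decide +kernel
def t4922 : ftest (NN 4922) 11 1934 = true := by decide +kernel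
def t5462 : ftest (NN 5462) 11 1650 = true := by decide +kernel
def t5929 : ftest (NN 5929) 11 1469 = true := by decide +kernel
def t6137 : ftest (NN 6137) 12 2283 = true := by decide +kernel
def t6262 : ftest (NN 6262) 10 607 = true := by decide +kernel
def t6345 : ftest (NN 6345) 11 1771 = true := by decide +kernel
def t6753 : ftest (NN 6753) 11 1058 = true := by decide +kernel
def t6951 : ftest (NN 6951) 10 806 = true := by decide +kernel
def t7020 : ftest (NN 7020) 9 449 = true := by decide +kernel
def t7238 : ftest (NN 7238) 8 194 = true := by decide +kernel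
def t7540 : ftest (NN 7540) 5 28 = true := by decide +kernel

theorem all : ∀ k ∈ [106, 679, 706, 795, 819, 1143, 1284, 1447, 1501, 1561, 1770, 2262, 2682, 2713, 2930, 3324, 3429, 3924, 4009, 4412, 4480, 4790, 4798, 4922, 5462, 5929, 6137, 6262, 6345, 6753, 6951, 7020, 7238, 7540], ¬ (NN k).Prime := by
  intro k hk
  simp only [List.mem_cons, List.not_mem_nil, or_false] at hk
  rcases hk with rfl | rfl | rfl | rfl | rfl | rfl | rfl | rfl | rfl | rfl | rfl | rfl | rfl | rfl | rfl | rfl | rfl | rfl | rfl | rfl | rfl | rfl | rfl | rfl | rfl | rfl | rfl | rfl | rfl | rfl | rfl | rfl | rfl | rfl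
  · exact not_prime_of_ftest _ _ _ t106
  · exact not_prime_of_ftest _ _ _ t679
  · exact not_prime_of_ftest _ _ _ t706
  · exact not_prime_of_ftest _ _ _ t795
  · exact not_prime_of_ftest _ _ _ t819
  · exact not_prime_of_ftest _ _ _ t1143
  · exact not_prime_of_ftest _ _ _ t1284
  · exact not_prime_of_ftest _ _ _ t1447
  · exact not_prime_of_ftest _ _ _ t1501
  · exact not_prime_of_ftest _ _ _ t1561
  · exact not_prime_of_ftest _ _ _ t1770
  · exact not_prime_of_ftest _ _ _ t2262
  · exact not_prime_of_ftest _ _ _ t2682
  · exact not_prime_of_ftest _ _ _ t2713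
  · exact not_prime_of_ftest _ _ _ t2930
  · exact not_prime_of_ftest _ _ _ t3324
  · exact not_prime_of_ftest _ _ _ t3429
  · exact not_prime_of_ftest _ _ _ t3924
  · exact not_prime_of_ftest _ _ _ t4009
  · exact not_prime_of_ftest _ _ _ t4412
  · exact not_prime_of_ftest _ _ _ t4480
  · exact not_prime_of_ftest _ _ _ t4790
  · exact not_prime_of_ftest _ _ _ t4798
  · exact not_prime_of_ftest _ _ _ t4922
  · exact not_prime_of_ftest _ _ _ t5462
  · exact not_prime_of_ftest _ _ _ t5929
  · exact not_prime_of_ftest _ _ _ t6137
  · exact not_prime_of_ftest _ _ _ t6262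
  · exact not_prime_of_ftest _ _ _ t6345
  · exact not_prime_of_ftest _ _ _ t6753
  · exact not_prime_of_ftest _ _ _ t6951
  · exact not_prime_of_ftest _ _ _ t7020
  · exact not_prime_of_ftest _ _ _ t7238
  · exact not_prime_of_ftest _ _ _ t7540

end Pool.Agent.Q256.TotB.P0
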