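import Pool.Agent.Q256.TotB.Def

set_option autoImplicit false

/-! Fermat tests to the base 2 (part 1). -/

namespace Pool.Agent.Q256.TotB.P1

open Pool.Agent.Q256.Tot

def t30 : ftest (NN 30) 12 2341 = true := by decide +kernel
def t129 : ftest (NN 129) 13 6548 = true := by decide +kernel
def t336 : ftest (NN 336) 12 3175 = true := by decide +kernel
def t785 : ftest (NN 785) 13 8180 = true := by decide +kernel
def t832 : ftest (NN 832) 12 2728 = true := by decide +kernel
def t1135 : ftest (NN 1135) 13 5437 = true := by decide +kernel
def t1424 : ftest (NN 1424) 12 3805 = true := by decide +kernel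
def t2050 : ftest (NN 2050) 12 2312 = true := by decide +kernel
def t2249 : ftest (NN 2249) 13 7017 = true := by decide +kernel
def t2368 : ftest (NN 2368) 11 1885 = true := by decide +kernel
def t2541 : ftest (NN 2541) 13 6059 = true := by decide +kernel
def t3030 : ftest (NN 3030) 12 3159 = true := by decide +kernel
def t3079 : ftest (NN 3079) 13 4330 = true := by decide +kernel
def t3318 : ftest (NN 3318) 12 2107 = true := by decide +kernel
def t3323 : ftest (NN 3323) 13 4986 = true := by decide +kernel
def t3367 : ftest (NN 3367) 12 3482 = true := by decide +kernel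
def t3416 : ftest (NN 3416) 12 2608 = true := by decide +kernel
def t3872 : ftest (NN 3872) 12 2767 = true := by decide +kernel
def t3880 : ftest (NN 3880) 11 1826 = true := by decide +kernel
def t4368 : ftest (NN 4368) 11 1598 = true := by decide +kernel
def t4452 : ftest (NN 4452) 11 2038 = true := by decide +kernel
def t4509 : ftest (NN 4509) 13 4672 = true := by decide +kernel
def t4541 : ftest (NN 4541) 13 4193 = true := by decide +kernel
def t4696 : ftest (NN 4696) 11 1466 = true := by decide +kernel
def t4743 : ftest (NN 4743) 12 3470 = true := by decide +kernel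
def t4989 : ftest (NN 4989) 12 3786 = true := by decide +kernel
def t5104 : ftest (NN 5104) 11 1221 = true := by decide +kernel
def t5642 : ftest (NN 5642) 11 1292 = true := by decide +kernel
def t6454 : ftest (NN 6454) 10 515 = true := by decide +kernel
def t6493 : ftest (NN 6493) 10 914 = true := by decide +kernel
def t6977 : ftest (NN 6977) 10 883 = true := by decide +kernel
def t7064 : ftest (NN 7064) 9 418 = true := by decide +kernel
def t7431 : ftest (NN 7431) 8 253 = true := by decide +kernel

theorem all : ∀ k ∈ [30, 129, 336, 785, 832, 1135, 1424, 2050, 2249, 2368, 2541, 3030, 3079, 3318, 3323, 3367, 3416, 3872, 3880, 4368, 4452, 4509, 4541, 4696, 4743, 4989, 5104, 5642, 6454, 6493, 6977, 7064, 7431], ¬ (NN k).Prime := by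
  intro k hk
  simp only [List.mem_cons, List.not_mem_nil, or_false] at hk
  rcases hk with rfl | rfl | rfl | rfl | rfl | rfl | rfl | rfl | rfl | rfl | rfl | rfl | rfl | rfl | rfl | rfl | rfl | rfl | rfl | rfl | rfl | rfl | rfl | rfl | rfl | rfl | rfl | rfl | rfl | rfl | rfl | rfl | rfl
  · exact not_prime_of_ftest _ _ _ t30
  · exact not_prime_of_ftest _ _ _ t129
  · exact not_prime_of_ftest _ _ _ t336
  · exact not_prime_of_ftest _ _ _ t785
  · exact not_prime_of_ftest _ _ _ t832
  · exact not_prime_of_ftest _ _ _ t1135
  · exact not_prime_of_ftest _ _ _ t1424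
  · exact not_prime_of_ftest _ _ _ t2050
  · exact not_prime_of_ftest _ _ _ t2249
  · exact not_prime_of_ftest _ _ _ t2368
  · exact not_prime_of_ftest _ _ _ t2541
  · exact not_prime_of_ftest _ _ _ t3030
  · exact not_prime_of_ftest _ _ _ t3079
  · exact not_prime_of_ftest _ _ _ t3318
  · exact not_prime_of_ftest _ _ _ t3323
  · exact not_prime_of_ftest _ _ _ t3367
  · exact not_prime_of_ftest _ _ _ t3416
  · exact not_prime_of_ftest _ _ _ t3872
  · exact not_prime_of_ftest _ _ _ t3880
  · exact not_prime_of_ftest _ _ _ t4368
  · exact not_prime_of_ftest _ _ _ t4452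
  · exact not_prime_of_ftest _ _ _ t4509
  · exact not_prime_of_ftest _ _ _ t4541
  · exact not_prime_of_ftest _ _ _ t4696
  · exact not_prime_of_ftest _ _ _ t4743
  · exact not_prime_of_ftest _ _ _ t4989
  · exact not_prime_of_ftest _ _ _ t5104
  · exact not_prime_of_ftest _ _ _ t5642
  · exact not_prime_of_ftest _ _ _ t6454
  · exact not_prime_of_ftest _ _ _ t6493
  · exact not_prime_of_ftest _ _ _ t6977
  · exact not_prime_of_ftest _ _ _ t7064
  · exact not_prime_of_ftest _ _ _ t7431

end Pool.Agent.Q256.TotB.P1
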