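import Pool.Agent.Q256.TotB.Def

set_option autoImplicit false

/-! Fermat tests to the base 2 (part 10). -/

namespace Pool.Agent.Q256.TotB.P10

open Pool.Agent.Q256.Tot

def t396 : ftest (NN 396) 12 3627 = true := by decide +kernel
def t702 : ftest (NN 702) 12 3690 = true := by decide +kernel
def t1088 : ftest (NN 1088) 12 3028 = true := by decide +kernel
def t1411 : ftest (NN 1411) 13 5129 = true := by decide +kernel
def t1422 : ftest (NN 1422) 12 4037 = true := by decide +kernel
def t1497 : ftest (NN 1497) 13 8032 = true := by decide +kernel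
def t1710 : ftest (NN 1710) 12 3946 = true := by decide +kernel
def t2266 : ftest (NN 2266) 12 2471 = true := by decide +kernel
def t2349 : ftest (NN 2349) 13 6553 = true := by decide +kernel
def t2489 : ftest (NN 2489) 13 7191 = true := by decide +kernel
def t2515 : ftest (NN 2515) 13 4475 = true := by decide +kernel
def t2553 : ftest (NN 2553) 13 5299 = true := by decide +kernel
def t2851 : ftest (NN 2851) 13 4530 = true := by decide +kernel
def t3060 : ftest (NN 3060) 12 3267 = true := by decide +kernel
def t3209 : ftest (NN 3209) 13 6117 = true := by decide +kernel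
def t3554 : ftest (NN 3554) 12 2974 = true := by decide +kernel
def t4274 : ftest (NN 4274) 12 2499 = true := by decide +kernel
def t4414 : ftest (NN 4414) 11 1534 = true := by decide +kernel
def t4688 : ftest (NN 4688) 11 1709 = true := by decide +kernel
def t4730 : ftest (NN 4730) 12 2181 = true := by decide +kernel
def t4862 : ftest (NN 4862) 11 1974 = true := by decide +kernel
def t5029 : ftest (NN 5029) 12 2621 = true := by decide +kernel
def t5134 : ftest (NN 5134) 11 1259 = true := by decide +kernel
def t5386 : ftest (NN 5386) 11 1136 = true := by decide +kernel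
def t5451 : ftest (NN 5451) 12 3316 = true := by decide +kernel
def t6075 : ftest (NN 6075) 12 2214 = true := by decide +kernel
def t6284 : ftest (NN 6284) 10 1024 = true := by decide +kernel
def t6357 : ftest (NN 6357) 11 1945 = true := by decide +kernel
def t6480 : ftest (NN 6480) 10 876 = true := by decide +kernel
def t6525 : ftest (NN 6525) 11 1684 = true := by decide +kernel
def t6932 : ftest (NN 6932) 9 512 = true := by decide +kernel
def t7325 : ftest (NN 7325) 9 423 = true := by decide +kernel
def t7396 : ftest (NN 7396) 7 105 = true := by decide +kernel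
def t7451 : ftest (NN 7451) 8 221 = true := by decide +kernel

theorem all : ∀ k ∈ [396, 702, 1088, 1411, 1422, 1497, 1710, 2266, 2349, 2489, 2515, 2553, 2851, 3060, 3209, 3554, 4274, 4414, 4688, 4730, 4862, 5029, 5134, 5386, 5451, 6075, 6284, 6357, 6480, 6525, 6932, 7325, 7396, 7451], ¬ (NN k).Prime := by
  intro k hk
  simp only [List.mem_cons, List.not_mem_nil, or_false] at hk
  rcases hk with rfl | rfl | rfl | rfl | rfl | rfl | rfl | rfl | rfl | rfl | rfl | rfl | rfl | rfl | rfl | rfl | rfl | rfl | rfl | rfl | rfl | rfl | rfl | rfl | rfl | rfl | rfl | rfl | rfl | rfl | rfl | rfl | rfl | rfl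
  · exact not_prime_of_ftest _ _ _ t396
  · exact not_prime_of_ftest _ _ _ t702
  · exact not_prime_of_ftest _ _ _ t1088
  · exact not_prime_of_ftest _ _ _ t1411
  · exact not_prime_of_ftest _ _ _ t1422
  · exact not_prime_of_ftest _ _ _ t1497
  · exact not_prime_of_ftest _ _ _ t1710
  · exact not_prime_of_ftest _ _ _ t2266
  · exact not_prime_of_ftest _ _ _ t2349
  · exact not_prime_of_ftest _ _ _ t2489
  · exact not_prime_of_ftest _ _ _ t2515
  · exact not_prime_of_ftest _ _ _ t2553
  · exact not_prime_of_ftest _ _ _ t2851
  · exact not_prime_of_ftest _ _ _ t3060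
  · exact not_prime_of_ftest _ _ _ t3209
  · exact not_prime_of_ftest _ _ _ t3554
  · exact not_prime_of_ftest _ _ _ t4274
  · exact not_prime_of_ftest _ _ _ t4414
  · exact not_prime_of_ftest _ _ _ t4688
  · exact not_prime_of_ftest _ _ _ t4730
  · exact not_prime_of_ftest _ _ _ t4862
  · exact not_prime_of_ftest _ _ _ t5029
  · exact not_prime_of_ftest _ _ _ t5134
  · exact not_prime_of_ftest _ _ _ t5386
  · exact not_prime_of_ftest _ _ _ t5451
  · exact not_prime_of_ftest _ _ _ t6075
  · exact not_prime_of_ftest _ _ _ t6284
  · exact not_prime_of_ftest _ _ _ t6357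
  · exact not_prime_of_ftest _ _ _ t6480
  · exact not_prime_of_ftest _ _ _ t6525
  · exact not_prime_of_ftest _ _ _ t6932
  · exact not_prime_of_ftest _ _ _ t7325
  · exact not_prime_of_ftest _ _ _ t7396
  · exact not_prime_of_ftest _ _ _ t7451

end Pool.Agent.Q256.TotB.P10
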