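import Pool.Agent.Q256.TotB.Def

set_option autoImplicit false

/-! Fermat tests to the base 2 (part 11). -/

namespace Pool.Agent.Q256.TotB.P11

open Pool.Agent.Q256.Tot

def t498 : ftest (NN 498) 12 3174 = true := by decide +kernel
def t939 : ftest (NN 939) 13 8002 = true := by decide +kernel
def t988 : ftest (NN 988) 11 1992 = true := by decide +kernel
def t1142 : ftest (NN 1142) 12 3710 = true := by decide +kernel
def t1179 : ftest (NN 1179) 13 6859 = true := by decide +kernel
def t1270 : ftest (NN 1270) 12 2508 = true := by decide +kernel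
def t1408 : ftest (NN 1408) 12 2136 = true := by decide +kernel
def t1604 : ftest (NN 1604) 12 3409 = true := by decide +kernel
def t2089 : ftest (NN 2089) 13 4568 = true := by decide +kernel
def t2487 : ftest (NN 2487) 13 7193 = true := by decide +kernel
def t2964 : ftest (NN 2964) 12 3139 = true := by decide +kernel
def t3173 : ftest (NN 3173) 13 5132 = true := by decide +kernel
def t3381 : ftest (NN 3381) 13 5278 = true := by decide +kernel
def t3665 : ftest (NN 3665) 13 5807 = true := by decide +kernel
def t3854 : ftest (NN 3854) 12 2781 = true := by decide +kernel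
def t3958 : ftest (NN 3958) 11 1317 = true := by decide +kernel
def t4063 : ftest (NN 4063) 12 2759 = true := by decide +kernel
def t4166 : ftest (NN 4166) 12 2443 = true := by decide +kernel
def t4252 : ftest (NN 4252) 11 1665 = true := by decide +kernel
def t4571 : ftest (NN 4571) 12 3923 = true := by decide +kernel
def t4590 : ftest (NN 4590) 12 2280 = true := by decide +kernel
def t4653 : ftest (NN 4653) 12 3572 = true := by decide +kernel
def t4685 : ftest (NN 4685) 13 4425 = true := by decide +kernel
def t4757 : ftest (NN 4757) 12 4070 = true := by decide +kernel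
def t4984 : ftest (NN 4984) 11 1108 = true := by decide +kernel
def t5233 : ftest (NN 5233) 11 1929 = true := by decide +kernel
def t5534 : ftest (NN 5534) 11 1457 = true := by decide +kernel
def t5854 : ftest (NN 5854) 10 853 = true := by decide +kernel
def t5993 : ftest (NN 5993) 11 1759 = true := by decide +kernel
def t6720 : ftest (NN 6720) 10 574 = true := by decide +kernel
def t6929 : ftest (NN 6929) 11 1051 = true := by decide +kernel
def t7146 : ftest (NN 7146) 9 309 = true := by decide +kernel
def t7341 : ftest (NN 7341) 9 349 = true := by decide +kernel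

theorem all : ∀ k ∈ [498, 939, 988, 1142, 1179, 1270, 1408, 1604, 2089, 2487, 2964, 3173, 3381, 3665, 3854, 3958, 4063, 4166, 4252, 4571, 4590, 4653, 4685, 4757, 4984, 5233, 5534, 5854, 5993, 6720, 6929, 7146, 7341], ¬ (NN k).Prime := by
  intro k hk
  simp only [List.mem_cons, List.not_mem_nil, or_false] at hk
  rcases hk with rfl | rfl | rfl | rfl | rfl | rfl | rfl | rfl | rfl | rfl | rfl | rfl | rfl | rfl | rfl | rfl | rfl | rfl | rfl | rfl | rfl | rfl | rfl | rfl | rfl | rfl | rfl | rfl | rfl | rfl | rfl | rfl | rfl
  · exact not_prime_of_ftest _ _ _ t498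
  · exact not_prime_of_ftest _ _ _ t939
  · exact not_prime_of_ftest _ _ _ t988
  · exact not_prime_of_ftest _ _ _ t1142
  · exact not_prime_of_ftest _ _ _ t1179
  · exact not_prime_of_ftest _ _ _ t1270
  · exact not_prime_of_ftest _ _ _ t1408
  · exact not_prime_of_ftest _ _ _ t1604
  · exact not_prime_of_ftest _ _ _ t2089
  · exact not_prime_of_ftest _ _ _ t2487
  · exact not_prime_of_ftest _ _ _ t2964
  · exact not_prime_of_ftest _ _ _ t3173
  · exact not_prime_of_ftest _ _ _ t3381
  · exact not_prime_of_ftest _ _ _ t3665
  · exact not_prime_of_ftest _ _ _ t3854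
  · exact not_prime_of_ftest _ _ _ t3958
  · exact not_prime_of_ftest _ _ _ t4063
  · exact not_prime_of_ftest _ _ _ t4166
  · exact not_prime_of_ftest _ _ _ t4252
  · exact not_prime_of_ftest _ _ _ t4571
  · exact not_prime_of_ftest _ _ _ t4590
  · exact not_prime_of_ftest _ _ _ t4653
  · exact not_prime_of_ftest _ _ _ t4685
  · exact not_prime_of_ftest _ _ _ t4757
  · exact not_prime_of_ftest _ _ _ t4984
  · exact not_prime_of_ftest _ _ _ t5233
  · exact not_prime_of_ftest _ _ _ t5534
  · exact not_prime_of_ftest _ _ _ t5854
  · exact not_prime_of_ftest _ _ _ t5993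
  · exact not_prime_of_ftest _ _ _ t6720
  · exact not_prime_of_ftest _ _ _ t6929
  · exact not_prime_of_ftest _ _ _ t7146
  · exact not_prime_of_ftest _ _ _ t7341

end Pool.Agent.Q256.TotB.P11
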