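import Pool.Agent.Q256.TotB.Def

set_option autoImplicit false

/-! Fermat tests to the base 2 (part 12). -/

namespace Pool.Agent.Q256.TotB.P12

open Pool.Agent.Q256.Tot

def t147 : ftest (NN 147) 13 5744 = true := by decide +kernel
def t177 : ftest (NN 177) 13 6926 = true := by decide +kernel
def t448 : ftest (NN 448) 11 1693 = true := by decide +kernel
def t968 : ftest (NN 968) 12 3275 = true := by decide +kernel
def t1052 : ftest (NN 1052) 12 3797 = true := by decide +kernel
def t1252 : ftest (NN 1252) 12 2472 = true := by decide +kernel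
def t1273 : ftest (NN 1273) 13 4334 = true := by decide +kernel
def t1577 : ftest (NN 1577) 13 7983 = true := by decide +kernel
def t1637 : ftest (NN 1637) 13 7209 = true := by decide +kernel
def t2204 : ftest (NN 2204) 12 3734 = true := by decide +kernel
def t2248 : ftest (NN 2248) 11 1962 = true := by decide +kernel
def t2946 : ftest (NN 2946) 12 3027 = true := by decide +kernel
def t3247 : ftest (NN 3247) 13 4219 = true := by decide +kernel
def t3749 : ftest (NN 3749) 13 5167 = true := by decide +kernel
def t3806 : ftest (NN 3806) 12 2678 = true := by decide +kernel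
def t3997 : ftest (NN 3997) 12 2910 = true := by decide +kernel
def t4119 : ftest (NN 4119) 13 5208 = true := by decide +kernel
def t4233 : ftest (NN 4233) 12 3616 = true := by decide +kernel
def t4254 : ftest (NN 4254) 12 2512 = true := by decide +kernel
def t4328 : ftest (NN 4328) 11 1959 = true := by decide +kernel
def t4438 : ftest (NN 4438) 11 1092 = true := by decide +kernel
def t4547 : ftest (NN 4547) 13 4619 = true := by decide +kernel
def t5005 : ftest (NN 5005) 12 2214 = true := by decide +kernel
def t5445 : ftest (NN 5445) 12 3325 = true := by decide +kernel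
def t5455 : ftest (NN 5455) 12 2181 = true := by decide +kernel
def t5965 : ftest (NN 5965) 11 1695 = true := by decide +kernel
def t5984 : ftest (NN 5984) 11 1257 = true := by decide +kernel
def t6220 : ftest (NN 6220) 10 683 = true := by decide +kernel
def t6440 : ftest (NN 6440) 10 761 = true := by decide +kernel
def t6457 : ftest (NN 6457) 11 1065 = true := by decide +kernel
def t6611 : ftest (NN 6611) 11 1550 = true := by decide +kernel
def t6730 : ftest (NN 6730) 9 384 = true := by decide +kernel
def t7413 : ftest (NN 7413) 8 195 = true := by decide +kernel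
def t7435 : ftest (NN 7435) 8 156 = true := by decide +kernel

theorem all : ∀ k ∈ [147, 177, 448, 968, 1052, 1252, 1273, 1577, 1637, 2204, 2248, 2946, 3247, 3749, 3806, 3997, 4119, 4233, 4254, 4328, 4438, 4547, 5005, 5445, 5455, 5965, 5984, 6220, 6440, 6457, 6611, 6730, 7413, 7435], ¬ (NN k).Prime := by
  intro k hk
  simp only [List.mem_cons, List.not_mem_nil, or_false] at hk
  rcases hk with rfl | rfl | rfl | rfl | rfl | rfl | rfl | rfl | rfl | rfl | rfl | rfl | rfl | rfl | rfl | rfl | rfl | rfl | rfl | rfl | rfl | rfl | rfl | rfl | rfl | rfl | rfl | rfl | rfl | rfl | rfl | rfl | rfl | rfl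
  · exact not_prime_of_ftest _ _ _ t147
  · exact not_prime_of_ftest _ _ _ t177
  · exact not_prime_of_ftest _ _ _ t448
  · exact not_prime_of_ftest _ _ _ t968
  · exact not_prime_of_ftest _ _ _ t1052
  · exact not_prime_of_ftest _ _ _ t1252
  · exact not_prime_of_ftest _ _ _ t1273
  · exact not_prime_of_ftest _ _ _ t1577
  · exact not_prime_of_ftest _ _ _ t1637
  · exact not_prime_of_ftest _ _ _ t2204
  · exact not_prime_of_ftest _ _ _ t2248
  · exact not_prime_of_ftest _ _ _ t2946
  · exact not_prime_of_ftest _ _ _ t3247
  · exact not_prime_of_ftest _ _ _ t3749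
  · exact not_prime_of_ftest _ _ _ t3806
  · exact not_prime_of_ftest _ _ _ t3997
  · exact not_prime_of_ftest _ _ _ t4119
  · exact not_prime_of_ftest _ _ _ t4233
  · exact not_prime_of_ftest _ _ _ t4254
  · exact not_prime_of_ftest _ _ _ t4328
  · exact not_prime_of_ftest _ _ _ t4438
  · exact not_prime_of_ftest _ _ _ t4547
  · exact not_prime_of_ftest _ _ _ t5005
  · exact not_prime_of_ftest _ _ _ t5445
  · exact not_prime_of_ftest _ _ _ t5455
  · exact not_prime_of_ftest _ _ _ t5965
  · exact not_prime_of_ftest _ _ _ t5984
  · exact not_prime_of_ftest _ _ _ t6220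
  · exact not_prime_of_ftest _ _ _ t6440
  · exact not_prime_of_ftest _ _ _ t6457
  · exact not_prime_of_ftest _ _ _ t6611
  · exact not_prime_of_ftest _ _ _ t6730
  · exact not_prime_of_ftest _ _ _ t7413
  · exact not_prime_of_ftest _ _ _ t7435

end Pool.Agent.Q256.TotB.P12
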