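import Pool.Agent.Q256.TotB.Def

set_option autoImplicit false

/-! Fermat tests to the base 2 (part 13). -/

namespace Pool.Agent.Q256.TotB.P13

open Pool.Agent.Q256.Tot

def t198 : ftest (NN 198) 12 2819 = true := by decide +kernel
def t436 : ftest (NN 436) 12 2598 = true := by decide +kernel
def t594 : ftest (NN 594) 12 3707 = true := by decide +kernel
def t676 : ftest (NN 676) 12 2710 = true := by decide +kernel
def t708 : ftest (NN 708) 12 3183 = true := by decide +kernel
def t833 : ftest (NN 833) 13 5591 = true := by decide +kernel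
def t1004 : ftest (NN 1004) 13 4101 = true := by decide +kernel
def t1095 : ftest (NN 1095) 13 7954 = true := by decide +kernel
def t1113 : ftest (NN 1113) 13 5467 = true := by decide +kernel
def t1387 : ftest (NN 1387) 13 4887 = true := by decide +kernel
def t1961 : ftest (NN 1961) 13 7221 = true := by decide +kernel
def t2256 : ftest (NN 2256) 12 3511 = true := by decide +kernel
def t2395 : ftest (NN 2395) 13 4852 = true := by decide +kernel
def t2685 : ftest (NN 2685) 13 6982 = true := by decide +kernel
def t3306 : ftest (NN 3306) 12 3129 = true := by decide +kernel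
def t3904 : ftest (NN 3904) 11 1827 = true := by decide +kernel
def t4043 : ftest (NN 4043) 13 4243 = true := by decide +kernel
def t4182 : ftest (NN 4182) 12 2348 = true := by decide +kernel
def t4323 : ftest (NN 4323) 12 3939 = true := by decide +kernel
def t4795 : ftest (NN 4795) 12 2313 = true := by decide +kernel
def t4840 : ftest (NN 4840) 11 1398 = true := by decide +kernel
def t5256 : ftest (NN 5256) 11 1609 = true := by decide +kernel
def t5351 : ftest (NN 5351) 12 3464 = true := by decide +kernel
def t5408 : ftest (NN 5408) 11 1341 = true := by decide +kernel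
def t5557 : ftest (NN 5557) 12 2104 = true := by decide +kernel
def t5883 : ftest (NN 5883) 11 1880 = true := by decide +kernel
def t6022 : ftest (NN 6022) 10 793 = true := by decide +kernel
def t6171 : ftest (NN 6171) 11 2042 = true := by decide +kernel
def t6409 : ftest (NN 6409) 11 1235 = true := by decide +kernel
def t6463 : ftest (NN 6463) 10 951 = true := by decide +kernel
def t6822 : ftest (NN 6822) 10 610 = true := by decide +kernel
def t7002 : ftest (NN 7002) 9 468 = true := by decide +kernel
def t7455 : ftest (NN 7455) 8 176 = true := by decide +kernel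

theorem all : ∀ k ∈ [198, 436, 594, 676, 708, 833, 1004, 1095, 1113, 1387, 1961, 2256, 2395, 2685, 3306, 3904, 4043, 4182, 4323, 4795, 4840, 5256, 5351, 5408, 5557, 5883, 6022, 6171, 6409, 6463, 6822, 7002, 7455], ¬ (NN k).Prime := by
  intro k hk
  simp only [List.mem_cons, List.not_mem_nil, or_false] at hk
  rcases hk with rfl | rfl | rfl | rfl | rfl | rfl | rfl | rfl | rfl | rfl | rfl | rfl | rfl | rfl | rfl | rfl | rfl | rfl | rfl | rfl | rfl | rfl | rfl | rfl | rfl | rfl | rfl | rfl | rfl | rfl | rfl | rfl | rfl
  · exact not_prime_of_ftest _ _ _ t198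
  · exact not_prime_of_ftest _ _ _ t436
  · exact not_prime_of_ftest _ _ _ t594
  · exact not_prime_of_ftest _ _ _ t676
  · exact not_prime_of_ftest _ _ _ t708
  · exact not_prime_of_ftest _ _ _ t833
  · exact not_prime_of_ftest _ _ _ t1004
  · exact not_prime_of_ftest _ _ _ t1095
  · exact not_prime_of_ftest _ _ _ t1113
  · exact not_prime_of_ftest _ _ _ t1387
  · exact not_prime_of_ftest _ _ _ t1961
  · exact not_prime_of_ftest _ _ _ t2256
  · exact not_prime_of_ftest _ _ _ t2395
  · exact not_prime_of_ftest _ _ _ t2685
  · exact not_prime_of_ftest _ _ _ t3306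
  · exact not_prime_of_ftest _ _ _ t3904
  · exact not_prime_of_ftest _ _ _ t4043
  · exact not_prime_of_ftest _ _ _ t4182
  · exact not_prime_of_ftest _ _ _ t4323
  · exact not_prime_of_ftest _ _ _ t4795
  · exact not_prime_of_ftest _ _ _ t4840
  · exact not_prime_of_ftest _ _ _ t5256
  · exact not_prime_of_ftest _ _ _ t5351
  · exact not_prime_of_ftest _ _ _ t5408
  · exact not_prime_of_ftest _ _ _ t5557
  · exact not_prime_of_ftest _ _ _ t5883
  · exact not_prime_of_ftest _ _ _ t6022
  · exact not_prime_of_ftest _ _ _ t6171
  · exact not_prime_of_ftest _ _ _ t6409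
  · exact not_prime_of_ftest _ _ _ t6463
  · exact not_prime_of_ftest _ _ _ t6822
  · exact not_prime_of_ftest _ _ _ t7002
  · exact not_prime_of_ftest _ _ _ t7455

end Pool.Agent.Q256.TotB.P13
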