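import Pool.Agent.Q256.TotB.Def

set_option autoImplicit false

/-! Fermat tests to the base 2 (part 14). -/

namespace Pool.Agent.Q256.TotB.P14

open Pool.Agent.Q256.Tot

def t3 : ftest (NN 3) 11 1441 = true := by decide +kernel
def t515 : ftest (NN 515) 13 7233 = true := by decide +kernel
def t577 : ftest (NN 577) 13 4956 = true := by decide +kernel
def t592 : ftest (NN 592) 12 2397 = true := by decide +kernel
def t741 : ftest (NN 741) 13 7916 = true := by decide +kernel
def t1309 : ftest (NN 1309) 13 4103 = true := by decide +kernel
def t1381 : ftest (NN 1381) 13 5395 = true := by decide +kernel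
def t1638 : ftest (NN 1638) 12 2565 = true := by decide +kernel
def t1648 : ftest (NN 1648) 11 1926 = true := by decide +kernel
def t1681 : ftest (NN 1681) 13 4770 = true := by decide +kernel
def t2322 : ftest (NN 2322) 12 3681 = true := by decide +kernel
def t2669 : ftest (NN 2669) 13 6999 = true := by decide +kernel
def t3096 : ftest (NN 3096) 12 3255 = true := by decide +kernel
def t3106 : ftest (NN 3106) 12 2142 = true := by decide +kernel
def t3223 : ftest (NN 3223) 12 3358 = true := by decide +kernel
def t3309 : ftest (NN 3309) 13 5673 = true := by decide +kernel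
def t3434 : ftest (NN 3434) 12 2909 = true := by decide +kernel
def t3733 : ftest (NN 3733) 12 3040 = true := by decide +kernel
def t3876 : ftest (NN 3876) 12 2672 = true := by decide +kernel
def t3985 : ftest (NN 3985) 12 3590 = true := by decide +kernel
def t4799 : ftest (NN 4799) 13 4264 = true := by decide +kernel
def t4852 : ftest (NN 4852) 11 1324 = true := by decide +kernel
def t4994 : ftest (NN 4994) 11 1992 = true := by decide +kernel
def t5009 : ftest (NN 5009) 12 3963 = true := by decide +kernel
def t5191 : ftest (NN 5191) 12 2273 = true := by decide +kernel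
def t5586 : ftest (NN 5586) 11 1122 = true := by decide +kernel
def t5641 : ftest (NN 5641) 11 1809 = true := by decide +kernel
def t6270 : ftest (NN 6270) 11 1040 = true := by decide +kernel
def t6455 : ftest (NN 6455) 11 1616 = true := by decide +kernel
def t6492 : ftest (NN 6492) 10 863 = true := by decide +kernel
def t6550 : ftest (NN 6550) 10 547 = true := by decide +kernel
def t7093 : ftest (NN 7093) 9 386 = true := by decide +kernel
def t7415 : ftest (NN 7415) 9 279 = true := by decide +kernel

theorem all : ∀ k ∈ [3, 515, 577, 592, 741, 1309, 1381, 1638, 1648, 1681, 2322, 2669, 3096, 3106, 3223, 3309, 3434, 3733, 3876, 3985, 4799, 4852, 4994, 5009, 5191, 5586, 5641, 6270, 6455, 6492, 6550, 7093, 7415], ¬ (NN k).Prime := by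
  intro k hk
  simp only [List.mem_cons, List.not_mem_nil, or_false] at hk
  rcases hk with rfl | rfl | rfl | rfl | rfl | rfl | rfl | rfl | rfl | rfl | rfl | rfl | rfl | rfl | rfl | rfl | rfl | rfl | rfl | rfl | rfl | rfl | rfl | rfl | rfl | rfl | rfl | rfl | rfl | rfl | rfl | rfl | rfl
  · exact not_prime_of_ftest _ _ _ t3
  · exact not_prime_of_ftest _ _ _ t515
  · exact not_prime_of_ftest _ _ _ t577
  · exact not_prime_of_ftest _ _ _ t592
  · exact not_prime_of_ftest _ _ _ t741
  · exact not_prime_of_ftest _ _ _ t1309
  · exact not_prime_of_ftest _ _ _ t1381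
  · exact not_prime_of_ftest _ _ _ t1638
  · exact not_prime_of_ftest _ _ _ t1648
  · exact not_prime_of_ftest _ _ _ t1681
  · exact not_prime_of_ftest _ _ _ t2322
  · exact not_prime_of_ftest _ _ _ t2669
  · exact not_prime_of_ftest _ _ _ t3096
  · exact not_prime_of_ftest _ _ _ t3106
  · exact not_prime_of_ftest _ _ _ t3223
  · exact not_prime_of_ftest _ _ _ t3309
  · exact not_prime_of_ftest _ _ _ t3434
  · exact not_prime_of_ftest _ _ _ t3733
  · exact not_prime_of_ftest _ _ _ t3876
  · exact not_prime_of_ftest _ _ _ t3985
  · exact not_prime_of_ftest _ _ _ t4799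
  · exact not_prime_of_ftest _ _ _ t4852
  · exact not_prime_of_ftest _ _ _ t4994
  · exact not_prime_of_ftest _ _ _ t5009
  · exact not_prime_of_ftest _ _ _ t5191
  · exact not_prime_of_ftest _ _ _ t5586
  · exact not_prime_of_ftest _ _ _ t5641
  · exact not_prime_of_ftest _ _ _ t6270
  · exact not_prime_of_ftest _ _ _ t6455
  · exact not_prime_of_ftest _ _ _ t6492
  · exact not_prime_of_ftest _ _ _ t6550
  · exact not_prime_of_ftest _ _ _ t7093
  · exact not_prime_of_ftest _ _ _ t7415

end Pool.Agent.Q256.TotB.P14
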