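import Pool.Agent.Q256.TotB.Def

set_option autoImplicit false

/-! Fermat tests to the base 2 (part 16). -/

namespace Pool.Agent.Q256.TotB.P16

open Pool.Agent.Q256.Tot

def t271 : ftest (NN 271) 13 4915 = true := by decide +kernel
def t376 : ftest (NN 376) 12 2569 = true := by decide +kernel
def t512 : ftest (NN 512) 12 3783 = true := by decide +kernel
def t992 : ftest (NN 992) 12 3825 = true := by decide +kernel
def t1129 : ftest (NN 1129) 13 5458 = true := by decide +kernel
def t1144 : ftest (NN 1144) 12 2715 = true := by decide +kernel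
def t1663 : ftest (NN 1663) 13 4175 = true := by decide +kernel
def t1731 : ftest (NN 1731) 13 7877 = true := by decide +kernel
def t2148 : ftest (NN 2148) 12 2836 = true := by decide +kernel
def t2338 : ftest (NN 2338) 11 1681 = true := by decide +kernel
def t2357 : ftest (NN 2357) 13 7326 = true := by decide +kernel
def t2431 : ftest (NN 2431) 13 4810 = true := by decide +kernel
def t2525 : ftest (NN 2525) 13 6953 = true := by decide +kernel
def t2854 : ftest (NN 2854) 12 2258 = true := by decide +kernel
def t2952 : ftest (NN 2952) 12 3114 = true := by decide +kernel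
def t3059 : ftest (NN 3059) 13 5612 = true := by decide +kernel
def t3211 : ftest (NN 3211) 13 4248 = true := by decide +kernel
def t3523 : ftest (NN 3523) 12 3183 = true := by decide +kernel
def t3664 : ftest (NN 3664) 11 1920 = true := by decide +kernel
def t4422 : ftest (NN 4422) 12 2397 = true := by decide +kernel
def t4764 : ftest (NN 4764) 12 2152 = true := by decide +kernel
def t5257 : ftest (NN 5257) 11 2004 = true := by decide +kernel
def t5337 : ftest (NN 5337) 12 3485 = true := by decide +kernel
def t5349 : ftest (NN 5349) 12 3467 = true := by decide +kernel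
def t5413 : ftest (NN 5413) 11 1738 = true := by decide +kernel
def t5820 : ftest (NN 5820) 11 1203 = true := by decide +kernel
def t6106 : ftest (NN 6106) 10 681 = true := by decide +kernel
def t6210 : ftest (NN 6210) 10 985 = true := by decide +kernel
def t6627 : ftest (NN 6627) 11 1478 = true := by decide +kernel
def t6662 : ftest (NN 6662) 10 736 = true := by decide +kernel
def t6779 : ftest (NN 6779) 11 1288 = true := by decide +kernel
def t7112 : ftest (NN 7112) 9 309 = true := by decide +kernel
def t7329 : ftest (NN 7329) 9 349 = true := by decide +kernel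

theorem all : ∀ k ∈ [271, 376, 512, 992, 1129, 1144, 1663, 1731, 2148, 2338, 2357, 2431, 2525, 2854, 2952, 3059, 3211, 3523, 3664, 4422, 4764, 5257, 5337, 5349, 5413, 5820, 6106, 6210, 6627, 6662, 6779, 7112, 7329], ¬ (NN k).Prime := by
  intro k hk
  simp only [List.mem_cons, List.not_mem_nil, or_false] at hk
  rcases hk with rfl | rfl | rfl | rfl | rfl | rfl | rfl | rfl | rfl | rfl | rfl | rfl | rfl | rfl | rfl | rfl | rfl | rfl | rfl | rfl | rfl | rfl | rfl | rfl | rfl | rfl | rfl | rfl | rfl | rfl | rfl | rfl | rfl
  · exact not_prime_of_ftest _ _ _ t271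
  · exact not_prime_of_ftest _ _ _ t376
  · exact not_prime_of_ftest _ _ _ t512
  · exact not_prime_of_ftest _ _ _ t992
  · exact not_prime_of_ftest _ _ _ t1129
  · exact not_prime_of_ftest _ _ _ t1144
  · exact not_prime_of_ftest _ _ _ t1663
  · exact not_prime_of_ftest _ _ _ t1731
  · exact not_prime_of_ftest _ _ _ t2148
  · exact not_prime_of_ftest _ _ _ t2338
  · exact not_prime_of_ftest _ _ _ t2357
  · exact not_prime_of_ftest _ _ _ t2431
  · exact not_prime_of_ftest _ _ _ t2525
  · exact not_prime_of_ftest _ _ _ t2854
  · exact not_prime_of_ftest _ _ _ t2952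
  · exact not_prime_of_ftest _ _ _ t3059
  · exact not_prime_of_ftest _ _ _ t3211
  · exact not_prime_of_ftest _ _ _ t3523
  · exact not_prime_of_ftest _ _ _ t3664
  · exact not_prime_of_ftest _ _ _ t4422
  · exact not_prime_of_ftest _ _ _ t4764
  · exact not_prime_of_ftest _ _ _ t5257
  · exact not_prime_of_ftest _ _ _ t5337
  · exact not_prime_of_ftest _ _ _ t5349
  · exact not_prime_of_ftest _ _ _ t5413
  · exact not_prime_of_ftest _ _ _ t5820
  · exact not_prime_of_ftest _ _ _ t6106
  · exact not_prime_of_ftest _ _ _ t6210
  · exact not_prime_of_ftest _ _ _ t6627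
  · exact not_prime_of_ftest _ _ _ t6662
  · exact not_prime_of_ftest _ _ _ t6779
  · exact not_prime_of_ftest _ _ _ t7112
  · exact not_prime_of_ftest _ _ _ t7329

end Pool.Agent.Q256.TotB.P16
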