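import Pool.Agent.Q256.TotB.Def

set_option autoImplicit false

/-! Fermat tests to the base 2 (part 17). -/

namespace Pool.Agent.Q256.TotB.P17

open Pool.Agent.Q256.Tot

def t199 : ftest (NN 199) 13 4702 = true := by decide +kernel
def t508 : ftest (NN 508) 12 2088 = true := by decide +kernel
def t1207 : ftest (NN 1207) 13 5438 = true := by decide +kernel
def t1303 : ftest (NN 1303) 13 4328 = true := by decide +kernel
def t1427 : ftest (NN 1427) 13 7862 = true := by decide +kernel
def t1532 : ftest (NN 1532) 12 4002 = true := by decide +kernel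
def t1807 : ftest (NN 1807) 13 4979 = true := by decide +kernel
def t1827 : ftest (NN 1827) 13 6682 = true := by decide +kernel
def t2062 : ftest (NN 2062) 12 2529 = true := by decide +kernel
def t2260 : ftest (NN 2260) 12 2409 = true := by decide +kernel
def t2309 : ftest (NN 2309) 13 7374 = true := by decide +kernel
def t2756 : ftest (NN 2756) 12 3431 = true := by decide +kernel
def t3569 : ftest (NN 3569) 13 5929 = true := by decide +kernel
def t3848 : ftest (NN 3848) 11 1908 = true := by decide +kernel
def t3919 : ftest (NN 3919) 12 3649 = true := by decide +kernel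
def t4162 : ftest (NN 4162) 11 1715 = true := by decide +kernel
def t4473 : ftest (NN 4473) 12 3204 = true := by decide +kernel
def t4502 : ftest (NN 4502) 12 2341 = true := by decide +kernel
def t4629 : ftest (NN 4629) 12 4081 = true := by decide +kernel
def t4782 : ftest (NN 4782) 11 2019 = true := by decide +kernel
def t4838 : ftest (NN 4838) 11 1532 = true := by decide +kernel
def t4951 : ftest (NN 4951) 12 2690 = true := by decide +kernel
def t5116 : ftest (NN 5116) 11 1259 = true := by decide +kernel
def t5181 : ftest (NN 5181) 12 3543 = true := by decide +kernel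
def t5253 : ftest (NN 5253) 12 2882 = true := by decide +kernel
def t5276 : ftest (NN 5276) 11 1684 = true := by decide +kernel
def t5558 : ftest (NN 5558) 11 1047 = true := by decide +kernel
def t5609 : ftest (NN 5609) 12 3081 = true := by decide +kernel
def t6176 : ftest (NN 6176) 11 1110 = true := by decide +kernel
def t6272 : ftest (NN 6272) 10 873 = true := by decide +kernel
def t6592 : ftest (NN 6592) 10 522 = true := by decide +kernel
def t6928 : ftest (NN 6928) 9 257 = true := by decide +kernel
def t7207 : ftest (NN 7207) 9 406 = true := by decide +kernel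

theorem all : ∀ k ∈ [199, 508, 1207, 1303, 1427, 1532, 1807, 1827, 2062, 2260, 2309, 2756, 3569, 3848, 3919, 4162, 4473, 4502, 4629, 4782, 4838, 4951, 5116, 5181, 5253, 5276, 5558, 5609, 6176, 6272, 6592, 6928, 7207], ¬ (NN k).Prime := by
  intro k hk
  simp only [List.mem_cons, List.not_mem_nil, or_false] at hk
  rcases hk with rfl | rfl | rfl | rfl | rfl | rfl | rfl | rfl | rfl | rfl | rfl | rfl | rfl | rfl | rfl | rfl | rfl | rfl | rfl | rfl | rfl | rfl | rfl | rfl | rfl | rfl | rfl | rfl | rfl | rfl | rfl | rfl | rfl
  · exact not_prime_of_ftest _ _ _ t199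
  · exact not_prime_of_ftest _ _ _ t508
  · exact not_prime_of_ftest _ _ _ t1207
  · exact not_prime_of_ftest _ _ _ t1303
  · exact not_prime_of_ftest _ _ _ t1427
  · exact not_prime_of_ftest _ _ _ t1532
  · exact not_prime_of_ftest _ _ _ t1807
  · exact not_prime_of_ftest _ _ _ t1827
  · exact not_prime_of_ftest _ _ _ t2062
  · exact not_prime_of_ftest _ _ _ t2260
  · exact not_prime_of_ftest _ _ _ t2309
  · exact not_prime_of_ftest _ _ _ t2756
  · exact not_prime_of_ftest _ _ _ t3569
  · exact not_prime_of_ftest _ _ _ t3848
  · exact not_prime_of_ftest _ _ _ t3919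
  · exact not_prime_of_ftest _ _ _ t4162
  · exact not_prime_of_ftest _ _ _ t4473
  · exact not_prime_of_ftest _ _ _ t4502
  · exact not_prime_of_ftest _ _ _ t4629
  · exact not_prime_of_ftest _ _ _ t4782
  · exact not_prime_of_ftest _ _ _ t4838
  · exact not_prime_of_ftest _ _ _ t4951
  · exact not_prime_of_ftest _ _ _ t5116
  · exact not_prime_of_ftest _ _ _ t5181
  · exact not_prime_of_ftest _ _ _ t5253
  · exact not_prime_of_ftest _ _ _ t5276
  · exact not_prime_of_ftest _ _ _ t5558
  · exact not_prime_of_ftest _ _ _ t5609
  · exact not_prime_of_ftest _ _ _ t6176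
  · exact not_prime_of_ftest _ _ _ t6272
  · exact not_prime_of_ftest _ _ _ t6592
  · exact not_prime_of_ftest _ _ _ t6928
  · exact not_prime_of_ftest _ _ _ t7207

end Pool.Agent.Q256.TotB.P17
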