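import Pool.Agent.Q256.TotB.Def

set_option autoImplicit false

/-! Fermat tests to the base 2 (part 18). -/

namespace Pool.Agent.Q256.TotB.P18

open Pool.Agent.Q256.Tot

def t243 : ftest (NN 243) 13 5331 = true := by decide +kernel
def t389 : ftest (NN 389) 13 7387 = true := by decide +kernel
def t460 : ftest (NN 460) 12 2391 = true := by decide +kernel
def t675 : ftest (NN 675) 13 7828 = true := by decide +kernel
def t1346 : ftest (NN 1346) 12 4056 = true := by decide +kernel
def t1525 : ftest (NN 1525) 13 5110 = true := by decide +kernel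
def t1552 : ftest (NN 1552) 12 2663 = true := by decide +kernel
def t1645 : ftest (NN 1645) 13 4521 = true := by decide +kernel
def t1684 : ftest (NN 1684) 12 2574 = true := by decide +kernel
def t2012 : ftest (NN 2012) 12 3514 = true := by decide +kernel
def t2076 : ftest (NN 2076) 12 3440 = true := by decide +kernel
def t2762 : ftest (NN 2762) 12 3243 = true := by decide +kernel
def t2787 : ftest (NN 2787) 13 6869 = true := by decide +kernel
def t2821 : ftest (NN 2821) 12 3888 = true := by decide +kernel
def t2824 : ftest (NN 2824) 12 2272 = true := by decide +kernel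
def t3222 : ftest (NN 3222) 12 3044 = true := by decide +kernel
def t3285 : ftest (NN 3285) 13 5785 = true := by decide +kernel
def t3642 : ftest (NN 3642) 12 2918 = true := by decide +kernel
def t3799 : ftest (NN 3799) 12 3748 = true := by decide +kernel
def t3998 : ftest (NN 3998) 12 2144 = true := by decide +kernel
def t4298 : ftest (NN 4298) 11 1668 = true := by decide +kernel
def t4535 : ftest (NN 4535) 13 4466 = true := by decide +kernel
def t4548 : ftest (NN 4548) 11 1752 = true := by decide +kernel
def t4918 : ftest (NN 4918) 11 1081 = true := by decide +kernel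
def t5488 : ftest (NN 5488) 10 747 = true := by decide +kernel
def t5910 : ftest (NN 5910) 11 1314 = true := by decide +kernel
def t6187 : ftest (NN 6187) 11 1469 = true := by decide +kernel
def t6255 : ftest (NN 6255) 11 1988 = true := by decide +kernel
def t6365 : ftest (NN 6365) 11 1932 = true := by decide +kernel
def t6518 : ftest (NN 6518) 10 674 = true := by decide +kernel
def t6547 : ftest (NN 6547) 11 1099 = true := by decide +kernel
def t6886 : ftest (NN 6886) 9 346 = true := by decide +kernel
def t7072 : ftest (NN 7072) 9 271 = true := by decide +kernel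

theorem all : ∀ k ∈ [243, 389, 460, 675, 1346, 1525, 1552, 1645, 1684, 2012, 2076, 2762, 2787, 2821, 2824, 3222, 3285, 3642, 3799, 3998, 4298, 4535, 4548, 4918, 5488, 5910, 6187, 6255, 6365, 6518, 6547, 6886, 7072], ¬ (NN k).Prime := by
  intro k hk
  simp only [List.mem_cons, List.not_mem_nil, or_false] at hk
  rcases hk with rfl | rfl | rfl | rfl | rfl | rfl | rfl | rfl | rfl | rfl | rfl | rfl | rfl | rfl | rfl | rfl | rfl | rfl | rfl | rfl | rfl | rfl | rfl | rfl | rfl | rfl | rfl | rfl | rfl | rfl | rfl | rfl | rfl
  · exact not_prime_of_ftest _ _ _ t243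
  · exact not_prime_of_ftest _ _ _ t389
  · exact not_prime_of_ftest _ _ _ t460
  · exact not_prime_of_ftest _ _ _ t675
  · exact not_prime_of_ftest _ _ _ t1346
  · exact not_prime_of_ftest _ _ _ t1525
  · exact not_prime_of_ftest _ _ _ t1552
  · exact not_prime_of_ftest _ _ _ t1645
  · exact not_prime_of_ftest _ _ _ t1684
  · exact not_prime_of_ftest _ _ _ t2012
  · exact not_prime_of_ftest _ _ _ t2076
  · exact not_prime_of_ftest _ _ _ t2762
  · exact not_prime_of_ftest _ _ _ t2787
  · exact not_prime_of_ftest _ _ _ t2821
  · exact not_prime_of_ftest _ _ _ t2824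
  · exact not_prime_of_ftest _ _ _ t3222
  · exact not_prime_of_ftest _ _ _ t3285
  · exact not_prime_of_ftest _ _ _ t3642
  · exact not_prime_of_ftest _ _ _ t3799
  · exact not_prime_of_ftest _ _ _ t3998
  · exact not_prime_of_ftest _ _ _ t4298
  · exact not_prime_of_ftest _ _ _ t4535
  · exact not_prime_of_ftest _ _ _ t4548
  · exact not_prime_of_ftest _ _ _ t4918
  · exact not_prime_of_ftest _ _ _ t5488
  · exact not_prime_of_ftest _ _ _ t5910
  · exact not_prime_of_ftest _ _ _ t6187
  · exact not_prime_of_ftest _ _ _ t6255
  · exact not_prime_of_ftest _ _ _ t6365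
  · exact not_prime_of_ftest _ _ _ t6518
  · exact not_prime_of_ftest _ _ _ t6547
  · exact not_prime_of_ftest _ _ _ t6886
  · exact not_prime_of_ftest _ _ _ t7072

end Pool.Agent.Q256.TotB.P18
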