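import Pool.Agent.Q256.TotB.Def

set_option autoImplicit false

/-! Fermat tests to the base 2 (part 19). -/

namespace Pool.Agent.Q256.TotB.P19

open Pool.Agent.Q256.Tot

def t331 : ftest (NN 331) 13 4859 = true := by decide +kernel
def t707 : ftest (NN 707) 13 6975 = true := by decide +kernel
def t1002 : ftest (NN 1002) 12 3950 = true := by decide +kernel
def t1104 : ftest (NN 1104) 12 4096 = true := by decide +kernel
def t1108 : ftest (NN 1108) 12 2187 = true := by decide +kernel
def t1396 : ftest (NN 1396) 12 2635 = true := by decide +kernel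
def t1529 : ftest (NN 1529) 13 7809 = true := by decide +kernel
def t1923 : ftest (NN 1923) 13 5566 = true := by decide +kernel
def t1977 : ftest (NN 1977) 13 7393 = true := by decide +kernel
def t2304 : ftest (NN 2304) 12 3688 = true := by decide +kernel
def t2461 : ftest (NN 2461) 13 4812 = true := by decide +kernel
def t2690 : ftest (NN 2690) 12 3335 = true := by decide +kernel
def t2730 : ftest (NN 2730) 12 2964 = true := by decide +kernel
def t2753 : ftest (NN 2753) 13 5521 = true := by decide +kernel
def t3598 : ftest (NN 3598) 11 1278 = true := by decide +kernel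
def t3934 : ftest (NN 3934) 11 1507 = true := by decide +kernel
def t4016 : ftest (NN 4016) 12 2480 = true := by decide +kernel
def t4267 : ftest (NN 4267) 12 3258 = true := by decide +kernel
def t4597 : ftest (NN 4597) 12 3032 = true := by decide +kernel
def t4665 : ftest (NN 4665) 13 4280 = true := by decide +kernel
def t4692 : ftest (NN 4692) 12 2197 = true := by decide +kernel
def t5026 : ftest (NN 5026) 11 1109 = true := by decide +kernel
def t5161 : ftest (NN 5161) 12 2493 = true := by decide +kernel
def t5247 : ftest (NN 5247) 12 3617 = true := by decide +kernel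
def t5270 : ftest (NN 5270) 11 1671 = true := by decide +kernel
def t5342 : ftest (NN 5342) 11 1739 = true := by decide +kernel
def t5497 : ftest (NN 5497) 11 1990 = true := by decide +kernel
def t5731 : ftest (NN 5731) 11 1931 = true := by decide +kernel
def t6218 : ftest (NN 6218) 10 859 = true := by decide +kernel
def t6252 : ftest (NN 6252) 11 1049 = true := by decide +kernel
def t6876 : ftest (NN 6876) 10 563 = true := by decide +kernel
def t6978 : ftest (NN 6978) 9 385 = true := by decide +kernel
def t7296 : ftest (NN 7296) 8 233 = true := by decide +kernel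
def t7414 : ftest (NN 7414) 7 92 = true := by decide +kernel

theorem all : ∀ k ∈ [331, 707, 1002, 1104, 1108, 1396, 1529, 1923, 1977, 2304, 2461, 2690, 2730, 2753, 3598, 3934, 4016, 4267, 4597, 4665, 4692, 5026, 5161, 5247, 5270, 5342, 5497, 5731, 6218, 6252, 6876, 6978, 7296, 7414], ¬ (NN k).Prime := by
  intro k hk
  simp only [List.mem_cons, List.not_mem_nil, or_false] at hk
  rcases hk with rfl | rfl | rfl | rfl | rfl | rfl | rfl | rfl | rfl | rfl | rfl | rfl | rfl | rfl | rfl | rfl | rfl | rfl | rfl | rfl | rfl | rfl | rfl | rfl | rfl | rfl | rfl | rfl | rfl | rfl | rfl | rfl | rfl | rfl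
  · exact not_prime_of_ftest _ _ _ t331
  · exact not_prime_of_ftest _ _ _ t707
  · exact not_prime_of_ftest _ _ _ t1002
  · exact not_prime_of_ftest _ _ _ t1104
  · exact not_prime_of_ftest _ _ _ t1108
  · exact not_prime_of_ftest _ _ _ t1396
  · exact not_prime_of_ftest _ _ _ t1529
  · exact not_prime_of_ftest _ _ _ t1923
  · exact not_prime_of_ftest _ _ _ t1977
  · exact not_prime_of_ftest _ _ _ t2304
  · exact not_prime_of_ftest _ _ _ t2461
  · exact not_prime_of_ftest _ _ _ t2690
  · exact not_prime_of_ftest _ _ _ t2730
  · exact not_prime_of_ftest _ _ _ t2753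
  · exact not_prime_of_ftest _ _ _ t3598
  · exact not_prime_of_ftest _ _ _ t3934
  · exact not_prime_of_ftest _ _ _ t4016
  · exact not_prime_of_ftest _ _ _ t4267
  · exact not_prime_of_ftest _ _ _ t4597
  · exact not_prime_of_ftest _ _ _ t4665
  · exact not_prime_of_ftest _ _ _ t4692
  · exact not_prime_of_ftest _ _ _ t5026
  · exact not_prime_of_ftest _ _ _ t5161
  · exact not_prime_of_ftest _ _ _ t5247
  · exact not_prime_of_ftest _ _ _ t5270
  · exact not_prime_of_ftest _ _ _ t5342
  · exact not_prime_of_ftest _ _ _ t5497
  · exact not_prime_of_ftest _ _ _ t5731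
  · exact not_prime_of_ftest _ _ _ t6218
  · exact not_prime_of_ftest _ _ _ t6252
  · exact not_prime_of_ftest _ _ _ t6876
  · exact not_prime_of_ftest _ _ _ t6978
  · exact not_prime_of_ftest _ _ _ t7296
  · exact not_prime_of_ftest _ _ _ t7414

end Pool.Agent.Q256.TotB.P19
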