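import Pool.Agent.Q256.TotB.Def

set_option autoImplicit false

/-! Fermat tests to the base 2 (part 2). -/

namespace Pool.Agent.Q256.TotB.P2

open Pool.Agent.Q256.Tot

def t34 : ftest (NN 34) 11 1614 = true := by decide +kernel
def t85 : ftest (NN 85) 12 3857 = true := by decide +kernel
def t232 : ftest (NN 232) 12 2408 = true := by decide +kernel
def t516 : ftest (NN 516) 12 3463 = true := by decide +kernel
def t759 : ftest (NN 759) 13 8170 = true := by decide +kernel
def t996 : ftest (NN 996) 12 4066 = true := by decide +kernel
def t1651 : ftest (NN 1651) 13 5288 = true := by decide +kernel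
def t1943 : ftest (NN 1943) 13 6163 = true := by decide +kernel
def t2074 : ftest (NN 2074) 12 2531 = true := by decide +kernel
def t2226 : ftest (NN 2226) 12 3188 = true := by decide +kernel
def t2339 : ftest (NN 2339) 13 7053 = true := by decide +kernel
def t2869 : ftest (NN 2869) 12 3793 = true := by decide +kernel
def t3125 : ftest (NN 3125) 13 6477 = true := by decide +kernel
def t3244 : ftest (NN 3244) 12 2101 = true := by decide +kernel
def t3756 : ftest (NN 3756) 12 2840 = true := by decide +kernel
def t3790 : ftest (NN 3790) 11 1874 = true := by decide +kernel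
def t3833 : ftest (NN 3833) 13 4466 = true := by decide +kernel
def t4019 : ftest (NN 4019) 13 5156 = true := by decide +kernel
def t4273 : ftest (NN 4273) 12 2318 = true := by decide +kernel
def t4417 : ftest (NN 4417) 12 2727 = true := by decide +kernel
def t4443 : ftest (NN 4443) 12 3492 = true := by decide +kernel
def t4488 : ftest (NN 4488) 11 1822 = true := by decide +kernel
def t4625 : ftest (NN 4625) 13 4510 = true := by decide +kernel
def t5176 : ftest (NN 5176) 11 1223 = true := by decide +kernel
def t5595 : ftest (NN 5595) 12 3102 = true := by decide +kernel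
def t5818 : ftest (NN 5818) 10 727 = true := by decide +kernel
def t6018 : ftest (NN 6018) 10 981 = true := by decide +kernel
def t6287 : ftest (NN 6287) 12 2053 = true := by decide +kernel
def t6293 : ftest (NN 6293) 11 1365 = true := by decide +kernel
def t6643 : ftest (NN 6643) 10 688 = true := by decide +kernel
def t6725 : ftest (NN 6725) 11 1372 = true := by decide +kernel
def t7212 : ftest (NN 7212) 9 297 = true := by decide +kernel
def t7225 : ftest (NN 7225) 9 355 = true := by decide +kernel

theorem all : ∀ k ∈ [34, 85, 232, 516, 759, 996, 1651, 1943, 2074, 2226, 2339, 2869, 3125, 3244, 3756, 3790, 3833, 4019, 4273, 4417, 4443, 4488, 4625, 5176, 5595, 5818, 6018, 6287, 6293, 6643, 6725, 7212, 7225], ¬ (NN k).Prime := by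
  intro k hk
  simp only [List.mem_cons, List.not_mem_nil, or_false] at hk
  rcases hk with rfl | rfl | rfl | rfl | rfl | rfl | rfl | rfl | rfl | rfl | rfl | rfl | rfl | rfl | rfl | rfl | rfl | rfl | rfl | rfl | rfl | rfl | rfl | rfl | rfl | rfl | rfl | rfl | rfl | rfl | rfl | rfl | rfl
  · exact not_prime_of_ftest _ _ _ t34
  · exact not_prime_of_ftest _ _ _ t85
  · exact not_prime_of_ftest _ _ _ t232
  · exact not_prime_of_ftest _ _ _ t516
  · exact not_prime_of_ftest _ _ _ t759
  · exact not_prime_of_ftest _ _ _ t996
  · exact not_prime_of_ftest _ _ _ t1651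
  · exact not_prime_of_ftest _ _ _ t1943
  · exact not_prime_of_ftest _ _ _ t2074
  · exact not_prime_of_ftest _ _ _ t2226
  · exact not_prime_of_ftest _ _ _ t2339
  · exact not_prime_of_ftest _ _ _ t2869
  · exact not_prime_of_ftest _ _ _ t3125
  · exact not_prime_of_ftest _ _ _ t3244
  · exact not_prime_of_ftest _ _ _ t3756
  · exact not_prime_of_ftest _ _ _ t3790
  · exact not_prime_of_ftest _ _ _ t3833
  · exact not_prime_of_ftest _ _ _ t4019
  · exact not_prime_of_ftest _ _ _ t4273
  · exact not_prime_of_ftest _ _ _ t4417
  · exact not_prime_of_ftest _ _ _ t4443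
  · exact not_prime_of_ftest _ _ _ t4488
  · exact not_prime_of_ftest _ _ _ t4625
  · exact not_prime_of_ftest _ _ _ t5176
  · exact not_prime_of_ftest _ _ _ t5595
  · exact not_prime_of_ftest _ _ _ t5818
  · exact not_prime_of_ftest _ _ _ t6018
  · exact not_prime_of_ftest _ _ _ t6287
  · exact not_prime_of_ftest _ _ _ t6293
  · exact not_prime_of_ftest _ _ _ t6643
  · exact not_prime_of_ftest _ _ _ t6725
  · exact not_prime_of_ftest _ _ _ t7212
  · exact not_prime_of_ftest _ _ _ t7225

end Pool.Agent.Q256.TotB.P2
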