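import Pool.Agent.Q256.TotB.Def

set_option autoImplicit false

/-! Fermat tests to the base 2 (part 20). -/

namespace Pool.Agent.Q256.TotB.P20

open Pool.Agent.Q256.Tot

def t166 : ftest (NN 166) 12 2283 = true := by decide +kernel
def t372 : ftest (NN 372) 12 3419 = true := by decide +kernel
def t526 : ftest (NN 526) 12 2398 = true := by decide +kernel
def t722 : ftest (NN 722) 12 4076 = true := by decide +kernel
def t1125 : ftest (NN 1125) 13 7807 = true := by decide +kernel
def t1936 : ftest (NN 1936) 12 2557 = true := by decide +kernel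
def t2265 : ftest (NN 2265) 13 7417 = true := by decide +kernel
def t2477 : ftest (NN 2477) 13 6801 = true := by decide +kernel
def t2807 : ftest (NN 2807) 13 5861 = true := by decide +kernel
def t2863 : ftest (NN 2863) 12 3103 = true := by decide +kernel
def t3019 : ftest (NN 3019) 13 4401 = true := by decide +kernel
def t3192 : ftest (NN 3192) 12 2726 = true := by decide +kernel
def t3204 : ftest (NN 3204) 12 3170 = true := by decide +kernel
def t3363 : ftest (NN 3363) 13 4571 = true := by decide +kernel
def t3661 : ftest (NN 3661) 12 2843 = true := by decide +kernel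
def t3730 : ftest (NN 3730) 11 1906 = true := by decide +kernel
def t4017 : ftest (NN 4017) 13 5345 = true := by decide +kernel
def t4132 : ftest (NN 4132) 11 1732 = true := by decide +kernel
def t4148 : ftest (NN 4148) 11 2021 = true := by decide +kernel
def t4215 : ftest (NN 4215) 13 5078 = true := by decide +kernel
def t4583 : ftest (NN 4583) 12 3651 = true := by decide +kernel
def t4695 : ftest (NN 4695) 12 3997 = true := by decide +kernel
def t4750 : ftest (NN 4750) 11 1284 = true := by decide +kernel
def t4796 : ftest (NN 4796) 12 2130 = true := by decide +kernel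
def t5279 : ftest (NN 5279) 12 3570 = true := by decide +kernel
def t5292 : ftest (NN 5292) 11 1486 = true := by decide +kernel
def t6040 : ftest (NN 6040) 10 793 = true := by decide +kernel
def t6042 : ftest (NN 6042) 11 1214 = true := by decide +kernel
def t6224 : ftest (NN 6224) 10 947 = true := by decide +kernel
def t6527 : ftest (NN 6527) 11 1681 = true := by decide +kernel
def t6816 : ftest (NN 6816) 10 613 = true := by decide +kernel
def t6902 : ftest (NN 6902) 9 471 = true := by decide +kernel
def t7417 : ftest (NN 7417) 8 176 = true := by decide +kernel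

theorem all : ∀ k ∈ [166, 372, 526, 722, 1125, 1936, 2265, 2477, 2807, 2863, 3019, 3192, 3204, 3363, 3661, 3730, 4017, 4132, 4148, 4215, 4583, 4695, 4750, 4796, 5279, 5292, 6040, 6042, 6224, 6527, 6816, 6902, 7417], ¬ (NN k).Prime := by
  intro k hk
  simp only [List.mem_cons, List.not_mem_nil, or_false] at hk
  rcases hk with rfl | rfl | rfl | rfl | rfl | rfl | rfl | rfl | rfl | rfl | rfl | rfl | rfl | rfl | rfl | rfl | rfl | rfl | rfl | rfl | rfl | rfl | rfl | rfl | rfl | rfl | rfl | rfl | rfl | rfl | rfl | rfl | rfl
  · exact not_prime_of_ftest _ _ _ t166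
  · exact not_prime_of_ftest _ _ _ t372
  · exact not_prime_of_ftest _ _ _ t526
  · exact not_prime_of_ftest _ _ _ t722
  · exact not_prime_of_ftest _ _ _ t1125
  · exact not_prime_of_ftest _ _ _ t1936
  · exact not_prime_of_ftest _ _ _ t2265
  · exact not_prime_of_ftest _ _ _ t2477
  · exact not_prime_of_ftest _ _ _ t2807
  · exact not_prime_of_ftest _ _ _ t2863
  · exact not_prime_of_ftest _ _ _ t3019
  · exact not_prime_of_ftest _ _ _ t3192
  · exact not_prime_of_ftest _ _ _ t3204
  · exact not_prime_of_ftest _ _ _ t3363
  · exact not_prime_of_ftest _ _ _ t3661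
  · exact not_prime_of_ftest _ _ _ t3730
  · exact not_prime_of_ftest _ _ _ t4017
  · exact not_prime_of_ftest _ _ _ t4132
  · exact not_prime_of_ftest _ _ _ t4148
  · exact not_prime_of_ftest _ _ _ t4215
  · exact not_prime_of_ftest _ _ _ t4583
  · exact not_prime_of_ftest _ _ _ t4695
  · exact not_prime_of_ftest _ _ _ t4750
  · exact not_prime_of_ftest _ _ _ t4796
  · exact not_prime_of_ftest _ _ _ t5279
  · exact not_prime_of_ftest _ _ _ t5292
  · exact not_prime_of_ftest _ _ _ t6040
  · exact not_prime_of_ftest _ _ _ t6042
  · exact not_prime_of_ftest _ _ _ t6224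
  · exact not_prime_of_ftest _ _ _ t6527
  · exact not_prime_of_ftest _ _ _ t6816
  · exact not_prime_of_ftest _ _ _ t6902
  · exact not_prime_of_ftest _ _ _ t7417

end Pool.Agent.Q256.TotB.P20
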