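import Pool.Agent.Q256.TotB.Def

set_option autoImplicit false

/-! Fermat tests to the base 2 (part 21). -/

namespace Pool.Agent.Q256.TotB.P21

open Pool.Agent.Q256.Tot

def t210 : ftest (NN 210) 12 2781 = true := by decide +kernel
def t256 : ftest (NN 256) 12 2211 = true := by decide +kernel
def t770 : ftest (NN 770) 12 3497 = true := by decide +kernel
def t875 : ftest (NN 875) 13 6981 = true := by decide +kernel
def t957 : ftest (NN 957) 13 7756 = true := by decide +kernel
def t1366 : ftest (NN 1366) 12 2502 = true := by decide +kernel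
def t1633 : ftest (NN 1633) 13 4229 = true := by decide +kernel
def t1730 : ftest (NN 1730) 12 3767 = true := by decide +kernel
def t1777 : ftest (NN 1777) 13 4795 = true := by decide +kernel
def t1971 : ftest (NN 1971) 13 7445 = true := by decide +kernel
def t2216 : ftest (NN 2216) 12 3470 = true := by decide +kernel
def t2257 : ftest (NN 2257) 13 4948 = true := by decide +kernel
def t2703 : ftest (NN 2703) 13 5566 = true := by decide +kernel
def t3064 : ftest (NN 3064) 11 1948 = true := by decide +kernel
def t3224 : ftest (NN 3224) 12 3178 = true := by decide +kernel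
def t3545 : ftest (NN 3545) 13 5485 = true := by decide +kernel
def t3744 : ftest (NN 3744) 12 2762 = true := by decide +kernel
def t3969 : ftest (NN 3969) 13 4126 = true := by decide +kernel
def t3974 : ftest (NN 3974) 12 2477 = true := by decide +kernel
def t4294 : ftest (NN 4294) 11 1631 = true := by decide +kernel
def t4364 : ftest (NN 4364) 12 2179 = true := by decide +kernel
def t5013 : ftest (NN 5013) 12 3136 = true := by decide +kernel
def t5030 : ftest (NN 5030) 11 1966 = true := by decide +kernel
def t5067 : ftest (NN 5067) 12 3879 = true := by decide +kernel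
def t5124 : ftest (NN 5124) 11 1481 = true := by decide +kernel
def t5282 : ftest (NN 5282) 11 1783 = true := by decide +kernel
def t5796 : ftest (NN 5796) 11 1202 = true := by decide +kernel
def t6004 : ftest (NN 6004) 10 755 = true := by decide +kernel
def t6104 : ftest (NN 6104) 10 983 = true := by decide +kernel
def t6361 : ftest (NN 6361) 11 1291 = true := by decide +kernel
def t6968 : ftest (NN 6968) 9 385 = true := by decide +kernel
def t7073 : ftest (NN 7073) 10 654 = true := by decide +kernel
def t7375 : ftest (NN 7375) 8 227 = true := by decide +kernel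
def t7529 : ftest (NN 7529) 7 95 = true := by decide +kernel

theorem all : ∀ k ∈ [210, 256, 770, 875, 957, 1366, 1633, 1730, 1777, 1971, 2216, 2257, 2703, 3064, 3224, 3545, 3744, 3969, 3974, 4294, 4364, 5013, 5030, 5067, 5124, 5282, 5796, 6004, 6104, 6361, 6968, 7073, 7375, 7529], ¬ (NN k).Prime := by
  intro k hk
  simp only [List.mem_cons, List.not_mem_nil, or_false] at hk
  rcases hk with rfl | rfl | rfl | rfl | rfl | rfl | rfl | rfl | rfl | rfl | rfl | rfl | rfl | rfl | rfl | rfl | rfl | rfl | rfl | rfl | rfl | rfl | rfl | rfl | rfl | rfl | rfl | rfl | rfl | rfl | rfl | rfl | rfl | rfl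
  · exact not_prime_of_ftest _ _ _ t210
  · exact not_prime_of_ftest _ _ _ t256
  · exact not_prime_of_ftest _ _ _ t770
  · exact not_prime_of_ftest _ _ _ t875
  · exact not_prime_of_ftest _ _ _ t957
  · exact not_prime_of_ftest _ _ _ t1366
  · exact not_prime_of_ftest _ _ _ t1633
  · exact not_prime_of_ftest _ _ _ t1730
  · exact not_prime_of_ftest _ _ _ t1777
  · exact not_prime_of_ftest _ _ _ t1971
  · exact not_prime_of_ftest _ _ _ t2216
  · exact not_prime_of_ftest _ _ _ t2257
  · exact not_prime_of_ftest _ _ _ t2703
  · exact not_prime_of_ftest _ _ _ t3064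
  · exact not_prime_of_ftest _ _ _ t3224
  · exact not_prime_of_ftest _ _ _ t3545
  · exact not_prime_of_ftest _ _ _ t3744
  · exact not_prime_of_ftest _ _ _ t3969
  · exact not_prime_of_ftest _ _ _ t3974
  · exact not_prime_of_ftest _ _ _ t4294
  · exact not_prime_of_ftest _ _ _ t4364
  · exact not_prime_of_ftest _ _ _ t5013
  · exact not_prime_of_ftest _ _ _ t5030
  · exact not_prime_of_ftest _ _ _ t5067
  · exact not_prime_of_ftest _ _ _ t5124
  · exact not_prime_of_ftest _ _ _ t5282
  · exact not_prime_of_ftest _ _ _ t5796
  · exact not_prime_of_ftest _ _ _ t6004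
  · exact not_prime_of_ftest _ _ _ t6104
  · exact not_prime_of_ftest _ _ _ t6361
  · exact not_prime_of_ftest _ _ _ t6968
  · exact not_prime_of_ftest _ _ _ t7073
  · exact not_prime_of_ftest _ _ _ t7375
  · exact not_prime_of_ftest _ _ _ t7529

end Pool.Agent.Q256.TotB.P21
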