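import Pool.Agent.Q256.TotB.Def

set_option autoImplicit false

/-! Fermat tests to the base 2 (part 22). -/

namespace Pool.Agent.Q256.TotB.P22

open Pool.Agent.Q256.Tot

def t43 : ftest (NN 43) 12 2742 = true := by decide +kernel
def t104 : ftest (NN 104) 12 3140 = true := by decide +kernel
def t435 : ftest (NN 435) 13 7476 = true := by decide +kernel
def t497 : ftest (NN 497) 13 6802 = true := by decide +kernel
def t616 : ftest (NN 616) 12 2282 = true := by decide +kernel
def t824 : ftest (NN 824) 12 3838 = true := by decide +kernel
def t1599 : ftest (NN 1599) 13 7751 = true := by decide +kernel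
def t2102 : ftest (NN 2102) 12 3479 = true := by decide +kernel
def t2173 : ftest (NN 2173) 12 3793 = true := by decide +kernel
def t2192 : ftest (NN 2192) 12 3498 = true := by decide +kernel
def t2240 : ftest (NN 2240) 12 3174 = true := by decide +kernel
def t2509 : ftest (NN 2509) 13 4779 = true := by decide +kernel
def t2524 : ftest (NN 2524) 12 2375 = true := by decide +kernel
def t3205 : ftest (NN 3205) 13 4247 = true := by decide +kernel
def t3255 : ftest (NN 3255) 13 5410 = true := by decide +kernel
def t3374 : ftest (NN 3374) 12 2586 = true := by decide +kernel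
def t3645 : ftest (NN 3645) 13 5832 = true := by decide +kernel
def t3742 : ftest (NN 3742) 11 1901 = true := by decide +kernel
def t3987 : ftest (NN 3987) 13 4954 = true := by decide +kernel
def t4889 : ftest (NN 4889) 13 4135 = true := by decide +kernel
def t4942 : ftest (NN 4942) 11 1162 = true := by decide +kernel
def t4944 : ftest (NN 4944) 11 2027 = true := by decide +kernel
def t5210 : ftest (NN 5210) 11 1731 = true := by decide +kernel
def t5213 : ftest (NN 5213) 12 2780 = true := by decide +kernel
def t5443 : ftest (NN 5443) 11 1491 = true := by decide +kernel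
def t5527 : ftest (NN 5527) 12 2128 = true := by decide +kernel
def t5563 : ftest (NN 5563) 11 1682 = true := by decide +kernel
def t6043 : ftest (NN 6043) 11 1283 = true := by decide +kernel
def t6058 : ftest (NN 6058) 10 605 = true := by decide +kernel
def t6572 : ftest (NN 6572) 10 801 = true := by decide +kernel
def t6625 : ftest (NN 6625) 10 1011 = true := by decide +kernel
def t7133 : ftest (NN 7133) 9 463 = true := by decide +kernel
def t7411 : ftest (NN 7411) 8 189 = true := by decide +kernel

theorem all : ∀ k ∈ [43, 104, 435, 497, 616, 824, 1599, 2102, 2173, 2192, 2240, 2509, 2524, 3205, 3255, 3374, 3645, 3742, 3987, 4889, 4942, 4944, 5210, 5213, 5443, 5527, 5563, 6043, 6058, 6572, 6625, 7133, 7411], ¬ (NN k).Prime := by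
  intro k hk
  simp only [List.mem_cons, List.not_mem_nil, or_false] at hk
  rcases hk with rfl | rfl | rfl | rfl | rfl | rfl | rfl | rfl | rfl | rfl | rfl | rfl | rfl | rfl | rfl | rfl | rfl | rfl | rfl | rfl | rfl | rfl | rfl | rfl | rfl | rfl | rfl | rfl | rfl | rfl | rfl | rfl | rfl
  · exact not_prime_of_ftest _ _ _ t43
  · exact not_prime_of_ftest _ _ _ t104
  · exact not_prime_of_ftest _ _ _ t435
  · exact not_prime_of_ftest _ _ _ t497
  · exact not_prime_of_ftest _ _ _ t616
  · exact not_prime_of_ftest _ _ _ t824
  · exact not_prime_of_ftest _ _ _ t1599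
  · exact not_prime_of_ftest _ _ _ t2102
  · exact not_prime_of_ftest _ _ _ t2173
  · exact not_prime_of_ftest _ _ _ t2192
  · exact not_prime_of_ftest _ _ _ t2240
  · exact not_prime_of_ftest _ _ _ t2509
  · exact not_prime_of_ftest _ _ _ t2524
  · exact not_prime_of_ftest _ _ _ t3205
  · exact not_prime_of_ftest _ _ _ t3255
  · exact not_prime_of_ftest _ _ _ t3374
  · exact not_prime_of_ftest _ _ _ t3645
  · exact not_prime_of_ftest _ _ _ t3742
  · exact not_prime_of_ftest _ _ _ t3987
  · exact not_prime_of_ftest _ _ _ t4889
  · exact not_prime_of_ftest _ _ _ t4942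
  · exact not_prime_of_ftest _ _ _ t4944
  · exact not_prime_of_ftest _ _ _ t5210
  · exact not_prime_of_ftest _ _ _ t5213
  · exact not_prime_of_ftest _ _ _ t5443
  · exact not_prime_of_ftest _ _ _ t5527
  · exact not_prime_of_ftest _ _ _ t5563
  · exact not_prime_of_ftest _ _ _ t6043
  · exact not_prime_of_ftest _ _ _ t6058
  · exact not_prime_of_ftest _ _ _ t6572
  · exact not_prime_of_ftest _ _ _ t6625
  · exact not_prime_of_ftest _ _ _ t7133
  · exact not_prime_of_ftest _ _ _ t7411

end Pool.Agent.Q256.TotB.P22
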