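import Pool.Agent.Q256.TotB.Def

set_option autoImplicit false

/-! Fermat tests to the base 2 (part 23). -/

namespace Pool.Agent.Q256.TotB.P23

open Pool.Agent.Q256.Tot

def t20 : ftest (NN 20) 11 1846 = true := by decide +kernel
def t131 : ftest (NN 131) 13 6567 = true := by decide +kernel
def t811 : ftest (NN 811) 13 5438 = true := by decide +kernel
def t1508 : ftest (NN 1508) 12 3043 = true := by decide +kernel
def t1817 : ftest (NN 1817) 13 7506 = true := by decide +kernel
def t1895 : ftest (NN 1895) 13 7749 = true := by decide +kernel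
def t2185 : ftest (NN 2185) 13 4994 = true := by decide +kernel
def t2202 : ftest (NN 2202) 12 3739 = true := by decide +kernel
def t2533 : ftest (NN 2533) 12 3801 = true := by decide +kernel
def t2737 : ftest (NN 2737) 12 3599 = true := by decide +kernel
def t2827 : ftest (NN 2827) 13 4353 = true := by decide +kernel
def t2922 : ftest (NN 2922) 12 3358 = true := by decide +kernel
def t3051 : ftest (NN 3051) 13 6044 = true := by decide +kernel
def t3120 : ftest (NN 3120) 12 3241 = true := by decide +kernel
def t3292 : ftest (NN 3292) 12 2082 = true := by decide +kernel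
def t3682 : ftest (NN 3682) 11 1601 = true := by decide +kernel
def t3913 : ftest (NN 3913) 12 2508 = true := by decide +kernel
def t4038 : ftest (NN 4038) 12 2098 = true := by decide +kernel
def t4056 : ftest (NN 4056) 12 2645 = true := by decide +kernel
def t4527 : ftest (NN 4527) 13 4647 = true := by decide +kernel
def t4544 : ftest (NN 4544) 12 2311 = true := by decide +kernel
def t4835 : ftest (NN 4835) 13 4212 = true := by decide +kernel
def t4897 : ftest (NN 4897) 12 2429 = true := by decide +kernel
def t4953 : ftest (NN 4953) 12 2948 = true := by decide +kernel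
def t5222 : ftest (NN 5222) 11 1447 = true := by decide +kernel
def t5626 : ftest (NN 5626) 10 1011 = true := by decide +kernel
def t5904 : ftest (NN 5904) 11 1317 = true := by decide +kernel
def t6100 : ftest (NN 6100) 10 757 = true := by decide +kernel
def t6327 : ftest (NN 6327) 11 1820 = true := by decide +kernel
def t6640 : ftest (NN 6640) 9 497 = true := by decide +kernel
def t6849 : ftest (NN 6849) 11 1178 = true := by decide +kernel
def t7103 : ftest (NN 7103) 10 616 = true := by decide +kernel
def t7491 : ftest (NN 7491) 8 157 = true := by decide +kernel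

theorem all : ∀ k ∈ [20, 131, 811, 1508, 1817, 1895, 2185, 2202, 2533, 2737, 2827, 2922, 3051, 3120, 3292, 3682, 3913, 4038, 4056, 4527, 4544, 4835, 4897, 4953, 5222, 5626, 5904, 6100, 6327, 6640, 6849, 7103, 7491], ¬ (NN k).Prime := by
  intro k hk
  simp only [List.mem_cons, List.not_mem_nil, or_false] at hk
  rcases hk with rfl | rfl | rfl | rfl | rfl | rfl | rfl | rfl | rfl | rfl | rfl | rfl | rfl | rfl | rfl | rfl | rfl | rfl | rfl | rfl | rfl | rfl | rfl | rfl | rfl | rfl | rfl | rfl | rfl | rfl | rfl | rfl | rfl
  · exact not_prime_of_ftest _ _ _ t20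
  · exact not_prime_of_ftest _ _ _ t131
  · exact not_prime_of_ftest _ _ _ t811
  · exact not_prime_of_ftest _ _ _ t1508
  · exact not_prime_of_ftest _ _ _ t1817
  · exact not_prime_of_ftest _ _ _ t1895
  · exact not_prime_of_ftest _ _ _ t2185
  · exact not_prime_of_ftest _ _ _ t2202
  · exact not_prime_of_ftest _ _ _ t2533
  · exact not_prime_of_ftest _ _ _ t2737
  · exact not_prime_of_ftest _ _ _ t2827
  · exact not_prime_of_ftest _ _ _ t2922
  · exact not_prime_of_ftest _ _ _ t3051
  · exact not_prime_of_ftest _ _ _ t3120
  · exact not_prime_of_ftest _ _ _ t3292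
  · exact not_prime_of_ftest _ _ _ t3682
  · exact not_prime_of_ftest _ _ _ t3913
  · exact not_prime_of_ftest _ _ _ t4038
  · exact not_prime_of_ftest _ _ _ t4056
  · exact not_prime_of_ftest _ _ _ t4527
  · exact not_prime_of_ftest _ _ _ t4544
  · exact not_prime_of_ftest _ _ _ t4835
  · exact not_prime_of_ftest _ _ _ t4897
  · exact not_prime_of_ftest _ _ _ t4953
  · exact not_prime_of_ftest _ _ _ t5222
  · exact not_prime_of_ftest _ _ _ t5626
  · exact not_prime_of_ftest _ _ _ t5904
  · exact not_prime_of_ftest _ _ _ t6100
  · exact not_prime_of_ftest _ _ _ t6327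
  · exact not_prime_of_ftest _ _ _ t6640
  · exact not_prime_of_ftest _ _ _ t6849
  · exact not_prime_of_ftest _ _ _ t7103
  · exact not_prime_of_ftest _ _ _ t7491

end Pool.Agent.Q256.TotB.P23
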