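import Pool.Agent.Q256.TotB.Def

set_option autoImplicit false

/-! Fermat tests to the base 2 (part 24). -/

namespace Pool.Agent.Q256.TotB.P24

open Pool.Agent.Q256.Tot

def t137 : ftest (NN 137) 13 6621 = true := by decide +kernel
def t158 : ftest (NN 158) 12 2714 = true := by decide +kernel
def t214 : ftest (NN 214) 12 2380 = true := by decide +kernel
def t444 : ftest (NN 444) 12 3644 = true := by decide +kernel
def t576 : ftest (NN 576) 12 4019 = true := by decide +kernel
def t979 : ftest (NN 979) 13 5472 = true := by decide +kernel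
def t1200 : ftest (NN 1200) 12 4084 = true := by decide +kernel
def t1372 : ftest (NN 1372) 12 2253 = true := by decide +kernel
def t1469 : ftest (NN 1469) 13 7735 = true := by decide +kernel
def t1917 : ftest (NN 1917) 13 7516 = true := by decide +kernel
def t2215 : ftest (NN 2215) 13 4953 = true := by decide +kernel
def t2418 : ftest (NN 2418) 12 2587 = true := by decide +kernel
def t2450 : ftest (NN 2450) 12 3093 = true := by decide +kernel
def t2464 : ftest (NN 2464) 11 2030 = true := by decide +kernel
def t2672 : ftest (NN 2672) 12 3497 = true := by decide +kernel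
def t2736 : ftest (NN 2736) 12 3462 = true := by decide +kernel
def t3023 : ftest (NN 3023) 13 4742 = true := by decide +kernel
def t3139 : ftest (NN 3139) 13 4306 = true := by decide +kernel
def t3539 : ftest (NN 3539) 13 5967 = true := by decide +kernel
def t3922 : ftest (NN 3922) 11 1649 = true := by decide +kernel
def t4498 : ftest (NN 4498) 11 1240 = true := by decide +kernel
def t4770 : ftest (NN 4770) 12 2153 = true := by decide +kernel
def t4983 : ftest (NN 4983) 12 3196 = true := by decide +kernel
def t5220 : ftest (NN 5220) 11 1780 = true := by decide +kernel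
def t5318 : ftest (NN 5318) 11 1401 = true := by decide +kernel
def t5765 : ftest (NN 5765) 12 2847 = true := by decide +kernel
def t5983 : ftest (NN 5983) 11 1332 = true := by decide +kernel
def t6070 : ftest (NN 6070) 10 693 = true := by decide +kernel
def t6275 : ftest (NN 6275) 11 1894 = true := by decide +kernel
def t6674 : ftest (NN 6674) 10 726 = true := by decide +kernel
def t6975 : ftest (NN 6975) 10 979 = true := by decide +kernel
def t7000 : ftest (NN 7000) 9 270 = true := by decide +kernel
def t7070 : ftest (NN 7070) 9 347 = true := by decide +kernel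

theorem all : ∀ k ∈ [137, 158, 214, 444, 576, 979, 1200, 1372, 1469, 1917, 2215, 2418, 2450, 2464, 2672, 2736, 3023, 3139, 3539, 3922, 4498, 4770, 4983, 5220, 5318, 5765, 5983, 6070, 6275, 6674, 6975, 7000, 7070], ¬ (NN k).Prime := by
  intro k hk
  simp only [List.mem_cons, List.not_mem_nil, or_false] at hk
  rcases hk with rfl | rfl | rfl | rfl | rfl | rfl | rfl | rfl | rfl | rfl | rfl | rfl | rfl | rfl | rfl | rfl | rfl | rfl | rfl | rfl | rfl | rfl | rfl | rfl | rfl | rfl | rfl | rfl | rfl | rfl | rfl | rfl | rfl
  · exact not_prime_of_ftest _ _ _ t137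
  · exact not_prime_of_ftest _ _ _ t158
  · exact not_prime_of_ftest _ _ _ t214
  · exact not_prime_of_ftest _ _ _ t444
  · exact not_prime_of_ftest _ _ _ t576
  · exact not_prime_of_ftest _ _ _ t979
  · exact not_prime_of_ftest _ _ _ t1200
  · exact not_prime_of_ftest _ _ _ t1372
  · exact not_prime_of_ftest _ _ _ t1469
  · exact not_prime_of_ftest _ _ _ t1917
  · exact not_prime_of_ftest _ _ _ t2215
  · exact not_prime_of_ftest _ _ _ t2418
  · exact not_prime_of_ftest _ _ _ t2450
  · exact not_prime_of_ftest _ _ _ t2464
  · exact not_prime_of_ftest _ _ _ t2672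
  · exact not_prime_of_ftest _ _ _ t2736
  · exact not_prime_of_ftest _ _ _ t3023
  · exact not_prime_of_ftest _ _ _ t3139
  · exact not_prime_of_ftest _ _ _ t3539
  · exact not_prime_of_ftest _ _ _ t3922
  · exact not_prime_of_ftest _ _ _ t4498
  · exact not_prime_of_ftest _ _ _ t4770
  · exact not_prime_of_ftest _ _ _ t4983
  · exact not_prime_of_ftest _ _ _ t5220
  · exact not_prime_of_ftest _ _ _ t5318
  · exact not_prime_of_ftest _ _ _ t5765
  · exact not_prime_of_ftest _ _ _ t5983
  · exact not_prime_of_ftest _ _ _ t6070
  · exact not_prime_of_ftest _ _ _ t6275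
  · exact not_prime_of_ftest _ _ _ t6674
  · exact not_prime_of_ftest _ _ _ t6975
  · exact not_prime_of_ftest _ _ _ t7000
  · exact not_prime_of_ftest _ _ _ t7070

end Pool.Agent.Q256.TotB.P24
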