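import Pool.Agent.Q256.TotB.Def

set_option autoImplicit false

/-! Fermat tests to the base 2 (part 25). -/

namespace Pool.Agent.Q256.TotB.P25

open Pool.Agent.Q256.Tot

def t36 : ftest (NN 36) 12 2418 = true := by decide +kernel
def t499 : ftest (NN 499) 13 4951 = true := by decide +kernel
def t739 : ftest (NN 739) 13 5435 = true := by decide +kernel
def t944 : ftest (NN 944) 12 3708 = true := by decide +kernel
def t1203 : ftest (NN 1203) 13 6531 = true := by decide +kernel
def t1308 : ftest (NN 1308) 12 3232 = true := by decide +kernel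
def t1565 : ftest (NN 1565) 13 7548 = true := by decide +kernel
def t1724 : ftest (NN 1724) 12 3937 = true := by decide +kernel
def t1816 : ftest (NN 1816) 12 2341 = true := by decide +kernel
def t1876 : ftest (NN 1876) 12 2090 = true := by decide +kernel
def t1919 : ftest (NN 1919) 13 7729 = true := by decide +kernel
def t2066 : ftest (NN 2066) 12 3444 = true := by decide +kernel
def t2178 : ftest (NN 2178) 12 2996 = true := by decide +kernel
def t2528 : ftest (NN 2528) 12 2489 = true := by decide +kernel
def t2640 : ftest (NN 2640) 12 3514 = true := by decide +kernel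
def t2960 : ftest (NN 2960) 12 3046 = true := by decide +kernel
def t3459 : ftest (NN 3459) 13 6068 = true := by decide +kernel
def t3484 : ftest (NN 3484) 11 1908 = true := by decide +kernel
def t3513 : ftest (NN 3513) 13 4772 = true := by decide +kernel
def t3623 : ftest (NN 3623) 13 4258 = true := by decide +kernel
def t3716 : ftest (NN 3716) 12 2611 = true := by decide +kernel
def t4178 : ftest (NN 4178) 11 1806 = true := by decide +kernel
def t4607 : ftest (NN 4607) 13 4109 = true := by decide +kernel
def t5750 : ftest (NN 5750) 11 1435 = true := by decide +kernel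
def t5812 : ftest (NN 5812) 10 902 = true := by decide +kernel
def t6231 : ftest (NN 6231) 11 2013 = true := by decide +kernel
def t6302 : ftest (NN 6302) 10 1015 = true := by decide +kernel
def t6325 : ftest (NN 6325) 11 1328 = true := by decide +kernel
def t6367 : ftest (NN 6367) 11 1139 = true := by decide +kernel
def t6567 : ftest (NN 6567) 11 1619 = true := by decide +kernel
def t6938 : ftest (NN 6938) 9 385 = true := by decide +kernel
def t7277 : ftest (NN 7277) 9 499 = true := by decide +kernel
def t7381 : ftest (NN 7381) 8 214 = true := by decide +kernel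
def t7441 : ftest (NN 7441) 8 137 = true := by decide +kernel

theorem all : ∀ k ∈ [36, 499, 739, 944, 1203, 1308, 1565, 1724, 1816, 1876, 1919, 2066, 2178, 2528, 2640, 2960, 3459, 3484, 3513, 3623, 3716, 4178, 4607, 5750, 5812, 6231, 6302, 6325, 6367, 6567, 6938, 7277, 7381, 7441], ¬ (NN k).Prime := by
  intro k hk
  simp only [List.mem_cons, List.not_mem_nil, or_false] at hk
  rcases hk with rfl | rfl | rfl | rfl | rfl | rfl | rfl | rfl | rfl | rfl | rfl | rfl | rfl | rfl | rfl | rfl | rfl | rfl | rfl | rfl | rfl | rfl | rfl | rfl | rfl | rfl | rfl | rfl | rfl | rfl | rfl | rfl | rfl | rfl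
  · exact not_prime_of_ftest _ _ _ t36
  · exact not_prime_of_ftest _ _ _ t499
  · exact not_prime_of_ftest _ _ _ t739
  · exact not_prime_of_ftest _ _ _ t944
  · exact not_prime_of_ftest _ _ _ t1203
  · exact not_prime_of_ftest _ _ _ t1308
  · exact not_prime_of_ftest _ _ _ t1565
  · exact not_prime_of_ftest _ _ _ t1724
  · exact not_prime_of_ftest _ _ _ t1816
  · exact not_prime_of_ftest _ _ _ t1876
  · exact not_prime_of_ftest _ _ _ t1919
  · exact not_prime_of_ftest _ _ _ t2066
  · exact not_prime_of_ftest _ _ _ t2178
  · exact not_prime_of_ftest _ _ _ t2528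
  · exact not_prime_of_ftest _ _ _ t2640
  · exact not_prime_of_ftest _ _ _ t2960
  · exact not_prime_of_ftest _ _ _ t3459
  · exact not_prime_of_ftest _ _ _ t3484
  · exact not_prime_of_ftest _ _ _ t3513
  · exact not_prime_of_ftest _ _ _ t3623
  · exact not_prime_of_ftest _ _ _ t3716
  · exact not_prime_of_ftest _ _ _ t4178
  · exact not_prime_of_ftest _ _ _ t4607
  · exact not_prime_of_ftest _ _ _ t5750
  · exact not_prime_of_ftest _ _ _ t5812
  · exact not_prime_of_ftest _ _ _ t6231
  · exact not_prime_of_ftest _ _ _ t6302
  · exact not_prime_of_ftest _ _ _ t6325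
  · exact not_prime_of_ftest _ _ _ t6367
  · exact not_prime_of_ftest _ _ _ t6567
  · exact not_prime_of_ftest _ _ _ t6938
  · exact not_prime_of_ftest _ _ _ t7277
  · exact not_prime_of_ftest _ _ _ t7381
  · exact not_prime_of_ftest _ _ _ t7441

end Pool.Agent.Q256.TotB.P25
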