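import Pool.Agent.Q256.TotB.Def

set_option autoImplicit false

/-! Fermat tests to the base 2 (part 26). -/

namespace Pool.Agent.Q256.TotB.P26

open Pool.Agent.Q256.Tot

def t144 : ftest (NN 144) 12 3340 = true := by decide +kernel
def t334 : ftest (NN 334) 12 2266 = true := by decide +kernel
def t407 : ftest (NN 407) 13 7560 = true := by decide +kernel
def t773 : ftest (NN 773) 13 6182 = true := by decide +kernel
def t954 : ftest (NN 954) 12 3937 = true := by decide +kernel
def t1198 : ftest (NN 1198) 12 2150 = true := by decide +kernel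
def t1403 : ftest (NN 1403) 13 6463 = true := by decide +kernel
def t1619 : ftest (NN 1619) 13 7726 = true := by decide +kernel
def t1909 : ftest (NN 1909) 13 5152 = true := by decide +kernel
def t1976 : ftest (NN 1976) 12 3615 = true := by decide +kernel
def t2068 : ftest (NN 2068) 11 1940 = true := by decide +kernel
def t2683 : ftest (NN 2683) 12 3692 = true := by decide +kernel
def t2875 : ftest (NN 2875) 13 4512 = true := by decide +kernel
def t3792 : ftest (NN 3792) 12 2570 = true := by decide +kernel
def t3797 : ftest (NN 3797) 13 5282 = true := by decide +kernel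
def t3803 : ftest (NN 3803) 13 4498 = true := by decide +kernel
def t4147 : ftest (NN 4147) 12 3247 = true := by decide +kernel
def t4180 : ftest (NN 4180) 11 1686 = true := by decide +kernel
def t4487 : ftest (NN 4487) 12 4024 = true := by decide +kernel
def t4753 : ftest (NN 4753) 11 1981 = true := by decide +kernel
def t4981 : ftest (NN 4981) 12 2397 = true := by decide +kernel
def t5380 : ftest (NN 5380) 11 1093 = true := by decide +kernel
def t5388 : ftest (NN 5388) 11 1242 = true := by decide +kernel
def t5394 : ftest (NN 5394) 11 1700 = true := by decide +kernel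
def t5421 : ftest (NN 5421) 12 3041 = true := by decide +kernel
def t5433 : ftest (NN 5433) 12 2670 = true := by decide +kernel
def t5547 : ftest (NN 5547) 12 2912 = true := by decide +kernel
def t5576 : ftest (NN 5576) 11 1564 = true := by decide +kernel
def t6240 : ftest (NN 6240) 11 1061 = true := by decide +kernel
def t6364 : ftest (NN 6364) 10 609 = true := by decide +kernel
def t6685 : ftest (NN 6685) 10 803 = true := by decide +kernel
def t7129 : ftest (NN 7129) 9 463 = true := by decide +kernel
def t7362 : ftest (NN 7362) 8 182 = true := by decide +kernel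

theorem all : ∀ k ∈ [144, 334, 407, 773, 954, 1198, 1403, 1619, 1909, 1976, 2068, 2683, 2875, 3792, 3797, 3803, 4147, 4180, 4487, 4753, 4981, 5380, 5388, 5394, 5421, 5433, 5547, 5576, 6240, 6364, 6685, 7129, 7362], ¬ (NN k).Prime := by
  intro k hk
  simp only [List.mem_cons, List.not_mem_nil, or_false] at hk
  rcases hk with rfl | rfl | rfl | rfl | rfl | rfl | rfl | rfl | rfl | rfl | rfl | rfl | rfl | rfl | rfl | rfl | rfl | rfl | rfl | rfl | rfl | rfl | rfl | rfl | rfl | rfl | rfl | rfl | rfl | rfl | rfl | rfl | rfl
  · exact not_prime_of_ftest _ _ _ t144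
  · exact not_prime_of_ftest _ _ _ t334
  · exact not_prime_of_ftest _ _ _ t407
  · exact not_prime_of_ftest _ _ _ t773
  · exact not_prime_of_ftest _ _ _ t954
  · exact not_prime_of_ftest _ _ _ t1198
  · exact not_prime_of_ftest _ _ _ t1403
  · exact not_prime_of_ftest _ _ _ t1619
  · exact not_prime_of_ftest _ _ _ t1909
  · exact not_prime_of_ftest _ _ _ t1976
  · exact not_prime_of_ftest _ _ _ t2068
  · exact not_prime_of_ftest _ _ _ t2683
  · exact not_prime_of_ftest _ _ _ t2875
  · exact not_prime_of_ftest _ _ _ t3792
  · exact not_prime_of_ftest _ _ _ t3797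
  · exact not_prime_of_ftest _ _ _ t3803
  · exact not_prime_of_ftest _ _ _ t4147
  · exact not_prime_of_ftest _ _ _ t4180
  · exact not_prime_of_ftest _ _ _ t4487
  · exact not_prime_of_ftest _ _ _ t4753
  · exact not_prime_of_ftest _ _ _ t4981
  · exact not_prime_of_ftest _ _ _ t5380
  · exact not_prime_of_ftest _ _ _ t5388
  · exact not_prime_of_ftest _ _ _ t5394
  · exact not_prime_of_ftest _ _ _ t5421
  · exact not_prime_of_ftest _ _ _ t5433
  · exact not_prime_of_ftest _ _ _ t5547
  · exact not_prime_of_ftest _ _ _ t5576
  · exact not_prime_of_ftest _ _ _ t6240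
  · exact not_prime_of_ftest _ _ _ t6364
  · exact not_prime_of_ftest _ _ _ t6685
  · exact not_prime_of_ftest _ _ _ t7129
  · exact not_prime_of_ftest _ _ _ t7362

end Pool.Agent.Q256.TotB.P26
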