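import Pool.Agent.Q256.TotB.Def

set_option autoImplicit false

/-! Fermat tests to the base 2 (part 27). -/

namespace Pool.Agent.Q256.TotB.P27

open Pool.Agent.Q256.Tot

def t168 : ftest (NN 168) 12 2310 = true := by decide +kernel
def t340 : ftest (NN 340) 12 2526 = true := by decide +kernel
def t942 : ftest (NN 942) 13 4105 = true := by decide +kernel
def t943 : ftest (NN 943) 13 4370 = true := by decide +kernel
def t1033 : ftest (NN 1033) 12 3967 = true := by decide +kernel
def t1295 : ftest (NN 1295) 13 6516 = true := by decide +kernel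
def t1558 : ftest (NN 1558) 12 2102 = true := by decide +kernel
def t1671 : ftest (NN 1671) 13 7711 = true := by decide +kernel
def t1698 : ftest (NN 1698) 12 2899 = true := by decide +kernel
def t2105 : ftest (NN 2105) 13 7567 = true := by decide +kernel
def t2128 : ftest (NN 2128) 11 1594 = true := by decide +kernel
def t2316 : ftest (NN 2316) 12 3679 = true := by decide +kernel
def t2416 : ftest (NN 2416) 12 2418 = true := by decide +kernel
def t2918 : ftest (NN 2918) 12 2684 = true := by decide +kernel
def t2943 : ftest (NN 2943) 13 5349 = true := by decide +kernel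
def t2953 : ftest (NN 2953) 12 3530 = true := by decide +kernel
def t3126 : ftest (NN 3126) 12 3067 = true := by decide +kernel
def t3178 : ftest (NN 3178) 11 1468 = true := by decide +kernel
def t3245 : ftest (NN 3245) 13 6126 = true := by decide +kernel
def t3521 : ftest (NN 3521) 13 5074 = true := by decide +kernel
def t3723 : ftest (NN 3723) 13 4581 = true := by decide +kernel
def t4405 : ftest (NN 4405) 12 3210 = true := by decide +kernel
def t4522 : ftest (NN 4522) 11 1313 = true := by decide +kernel
def t4760 : ftest (NN 4760) 11 1835 = true := by decide +kernel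
def t5367 : ftest (NN 5367) 12 3440 = true := by decide +kernel
def t5817 : ftest (NN 5817) 12 2066 = true := by decide +kernel
def t6349 : ftest (NN 6349) 11 1101 = true := by decide +kernel
def t6417 : ftest (NN 6417) 11 1852 = true := by decide +kernel
def t6540 : ftest (NN 6540) 10 826 = true := by decide +kernel
def t6883 : ftest (NN 6883) 10 589 = true := by decide +kernel
def t6927 : ftest (NN 6927) 11 1055 = true := by decide +kernel
def t7105 : ftest (NN 7105) 9 424 = true := by decide +kernel
def t7320 : ftest (NN 7320) 8 214 = true := by decide +kernel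
def t7360 : ftest (NN 7360) 7 118 = true := by decide +kernel

theorem all : ∀ k ∈ [168, 340, 942, 943, 1033, 1295, 1558, 1671, 1698, 2105, 2128, 2316, 2416, 2918, 2943, 2953, 3126, 3178, 3245, 3521, 3723, 4405, 4522, 4760, 5367, 5817, 6349, 6417, 6540, 6883, 6927, 7105, 7320, 7360], ¬ (NN k).Prime := by
  intro k hk
  simp only [List.mem_cons, List.not_mem_nil, or_false] at hk
  rcases hk with rfl | rfl | rfl | rfl | rfl | rfl | rfl | rfl | rfl | rfl | rfl | rfl | rfl | rfl | rfl | rfl | rfl | rfl | rfl | rfl | rfl | rfl | rfl | rfl | rfl | rfl | rfl | rfl | rfl | rfl | rfl | rfl | rfl | rfl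
  · exact not_prime_of_ftest _ _ _ t168
  · exact not_prime_of_ftest _ _ _ t340
  · exact not_prime_of_ftest _ _ _ t942
  · exact not_prime_of_ftest _ _ _ t943
  · exact not_prime_of_ftest _ _ _ t1033
  · exact not_prime_of_ftest _ _ _ t1295
  · exact not_prime_of_ftest _ _ _ t1558
  · exact not_prime_of_ftest _ _ _ t1671
  · exact not_prime_of_ftest _ _ _ t1698
  · exact not_prime_of_ftest _ _ _ t2105
  · exact not_prime_of_ftest _ _ _ t2128
  · exact not_prime_of_ftest _ _ _ t2316
  · exact not_prime_of_ftest _ _ _ t2416
  · exact not_prime_of_ftest _ _ _ t2918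
  · exact not_prime_of_ftest _ _ _ t2943
  · exact not_prime_of_ftest _ _ _ t2953
  · exact not_prime_of_ftest _ _ _ t3126
  · exact not_prime_of_ftest _ _ _ t3178
  · exact not_prime_of_ftest _ _ _ t3245
  · exact not_prime_of_ftest _ _ _ t3521
  · exact not_prime_of_ftest _ _ _ t3723
  · exact not_prime_of_ftest _ _ _ t4405
  · exact not_prime_of_ftest _ _ _ t4522
  · exact not_prime_of_ftest _ _ _ t4760
  · exact not_prime_of_ftest _ _ _ t5367
  · exact not_prime_of_ftest _ _ _ t5817
  · exact not_prime_of_ftest _ _ _ t6349
  · exact not_prime_of_ftest _ _ _ t6417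
  · exact not_prime_of_ftest _ _ _ t6540
  · exact not_prime_of_ftest _ _ _ t6883
  · exact not_prime_of_ftest _ _ _ t6927
  · exact not_prime_of_ftest _ _ _ t7105
  · exact not_prime_of_ftest _ _ _ t7320
  · exact not_prime_of_ftest _ _ _ t7360

end Pool.Agent.Q256.TotB.P27
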