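import Pool.Agent.Q256.TotB.Def

set_option autoImplicit false

/-! Fermat tests to the base 2 (part 28). -/

namespace Pool.Agent.Q256.TotB.P28

open Pool.Agent.Q256.Tot

def t163 : ftest (NN 163) 12 3312 = true := by decide +kernel
def t636 : ftest (NN 636) 12 3635 = true := by decide +kernel
def t683 : ftest (NN 683) 13 6500 = true := by decide +kernel
def t818 : ftest (NN 818) 12 3273 = true := by decide +kernel
def t880 : ftest (NN 880) 12 2467 = true := by decide +kernel
def t1077 : ftest (NN 1077) 13 7698 = true := by decide +kernel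
def t1233 : ftest (NN 1233) 13 6163 = true := by decide +kernel
def t1483 : ftest (NN 1483) 12 3795 = true := by decide +kernel
def t2087 : ftest (NN 2087) 13 7584 = true := by decide +kernel
def t2093 : ftest (NN 2093) 13 5165 = true := by decide +kernel
def t2134 : ftest (NN 2134) 12 2490 = true := by decide +kernel
def t2576 : ftest (NN 2576) 12 3027 = true := by decide +kernel
def t3233 : ftest (NN 3233) 13 4619 = true := by decide +kernel
def t3520 : ftest (NN 3520) 11 1981 = true := by decide +kernel
def t3589 : ftest (NN 3589) 12 3722 = true := by decide +kernel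
def t3705 : ftest (NN 3705) 13 5218 = true := by decide +kernel
def t4020 : ftest (NN 4020) 12 2660 = true := by decide +kernel
def t4168 : ftest (NN 4168) 11 1301 = true := by decide +kernel
def t4592 : ftest (NN 4592) 11 1936 = true := by decide +kernel
def t4660 : ftest (NN 4660) 11 1464 = true := by decide +kernel
def t4667 : ftest (NN 4667) 13 4225 = true := by decide +kernel
def t4668 : ftest (NN 4668) 11 1757 = true := by decide +kernel
def t4724 : ftest (NN 4724) 12 2175 = true := by decide +kernel
def t4751 : ftest (NN 4751) 13 4332 = true := by decide +kernel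
def t4848 : ftest (NN 4848) 11 1667 = true := by decide +kernel
def t4923 : ftest (NN 4923) 12 2946 = true := by decide +kernel
def t5179 : ftest (NN 5179) 12 2223 = true := by decide +kernel
def t5944 : ftest (NN 5944) 10 855 = true := by decide +kernel
def t6193 : ftest (NN 6193) 11 1136 = true := by decide +kernel
def t6514 : ftest (NN 6514) 10 566 = true := by decide +kernel
def t6607 : ftest (NN 6607) 11 1030 = true := by decide +kernel
def t6818 : ftest (NN 6818) 9 384 = true := by decide +kernel
def t7208 : ftest (NN 7208) 8 233 = true := by decide +kernel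
def t7512 : ftest (NN 7512) 6 60 = true := by decide +kernel

theorem all : ∀ k ∈ [163, 636, 683, 818, 880, 1077, 1233, 1483, 2087, 2093, 2134, 2576, 3233, 3520, 3589, 3705, 4020, 4168, 4592, 4660, 4667, 4668, 4724, 4751, 4848, 4923, 5179, 5944, 6193, 6514, 6607, 6818, 7208, 7512], ¬ (NN k).Prime := by
  intro k hk
  simp only [List.mem_cons, List.not_mem_nil, or_false] at hk
  rcases hk with rfl | rfl | rfl | rfl | rfl | rfl | rfl | rfl | rfl | rfl | rfl | rfl | rfl | rfl | rfl | rfl | rfl | rfl | rfl | rfl | rfl | rfl | rfl | rfl | rfl | rfl | rfl | rfl | rfl | rfl | rfl | rfl | rfl | rfl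
  · exact not_prime_of_ftest _ _ _ t163
  · exact not_prime_of_ftest _ _ _ t636
  · exact not_prime_of_ftest _ _ _ t683
  · exact not_prime_of_ftest _ _ _ t818
  · exact not_prime_of_ftest _ _ _ t880
  · exact not_prime_of_ftest _ _ _ t1077
  · exact not_prime_of_ftest _ _ _ t1233
  · exact not_prime_of_ftest _ _ _ t1483
  · exact not_prime_of_ftest _ _ _ t2087
  · exact not_prime_of_ftest _ _ _ t2093
  · exact not_prime_of_ftest _ _ _ t2134
  · exact not_prime_of_ftest _ _ _ t2576
  · exact not_prime_of_ftest _ _ _ t3233
  · exact not_prime_of_ftest _ _ _ t3520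
  · exact not_prime_of_ftest _ _ _ t3589
  · exact not_prime_of_ftest _ _ _ t3705
  · exact not_prime_of_ftest _ _ _ t4020
  · exact not_prime_of_ftest _ _ _ t4168
  · exact not_prime_of_ftest _ _ _ t4592
  · exact not_prime_of_ftest _ _ _ t4660
  · exact not_prime_of_ftest _ _ _ t4667
  · exact not_prime_of_ftest _ _ _ t4668
  · exact not_prime_of_ftest _ _ _ t4724
  · exact not_prime_of_ftest _ _ _ t4751
  · exact not_prime_of_ftest _ _ _ t4848
  · exact not_prime_of_ftest _ _ _ t4923
  · exact not_prime_of_ftest _ _ _ t5179
  · exact not_prime_of_ftest _ _ _ t5944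
  · exact not_prime_of_ftest _ _ _ t6193
  · exact not_prime_of_ftest _ _ _ t6514
  · exact not_prime_of_ftest _ _ _ t6607
  · exact not_prime_of_ftest _ _ _ t6818
  · exact not_prime_of_ftest _ _ _ t7208
  · exact not_prime_of_ftest _ _ _ t7512

end Pool.Agent.Q256.TotB.P28
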