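import Pool.Agent.Q256.TotB.Def

set_option autoImplicit false

/-! Fermat tests to the base 2 (part 29). -/

namespace Pool.Agent.Q256.TotB.P29

open Pool.Agent.Q256.Tot

def t91 : ftest (NN 91) 12 3289 = true := by decide +kernel
def t111 : ftest (NN 111) 13 6363 = true := by decide +kernel
def t112 : ftest (NN 112) 11 1802 = true := by decide +kernel
def t335 : ftest (NN 335) 13 7609 = true := by decide +kernel
def t406 : ftest (NN 406) 12 2108 = true := by decide +kernel
def t1099 : ftest (NN 1099) 13 4639 = true := by decide +kernel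
def t1145 : ftest (NN 1145) 13 7685 = true := by decide +kernel
def t1154 : ftest (NN 1154) 12 4092 = true := by decide +kernel
def t1474 : ftest (NN 1474) 12 2681 = true := by decide +kernel
def t2376 : ftest (NN 2376) 12 3652 = true := by decide +kernel
def t2428 : ftest (NN 2428) 11 1891 = true := by decide +kernel
def t2658 : ftest (NN 2658) 12 2550 = true := by decide +kernel
def t3002 : ftest (NN 3002) 12 3312 = true := by decide +kernel
def t3317 : ftest (NN 3317) 13 6245 = true := by decide +kernel
def t3492 : ftest (NN 3492) 12 3015 = true := by decide +kernel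
def t3660 : ftest (NN 3660) 12 2902 = true := by decide +kernel
def t3975 : ftest (NN 3975) 13 5401 = true := by decide +kernel
def t4275 : ftest (NN 4275) 13 4996 = true := by decide +kernel
def t4424 : ftest (NN 4424) 11 2037 = true := by decide +kernel
def t4483 : ftest (NN 4483) 12 2404 = true := by decide +kernel
def t4556 : ftest (NN 4556) 12 2299 = true := by decide +kernel
def t4595 : ftest (NN 4595) 13 4382 = true := by decide +kernel
def t4908 : ftest (NN 4908) 11 1621 = true := by decide +kernel
def t4995 : ftest (NN 4995) 12 3983 = true := by decide +kernel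
def t5146 : ftest (NN 5146) 11 1112 = true := by decide +kernel
def t5237 : ftest (NN 5237) 12 3631 = true := by decide +kernel
def t6028 : ftest (NN 6028) 10 605 = true := by decide +kernel
def t6097 : ftest (NN 6097) 11 1322 = true := by decide +kernel
def t6126 : ftest (NN 6126) 11 1059 = true := by decide +kernel
def t6560 : ftest (NN 6560) 10 814 = true := by decide +kernel
def t6677 : ftest (NN 6677) 11 1447 = true := by decide +kernel
def t7076 : ftest (NN 7076) 9 411 = true := by decide +kernel
def t7096 : ftest (NN 7096) 9 258 = true := by decide +kernel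
def t7568 : ftest (NN 7568) 4 15 = true := by decide +kernel

theorem all : ∀ k ∈ [91, 111, 112, 335, 406, 1099, 1145, 1154, 1474, 2376, 2428, 2658, 3002, 3317, 3492, 3660, 3975, 4275, 4424, 4483, 4556, 4595, 4908, 4995, 5146, 5237, 6028, 6097, 6126, 6560, 6677, 7076, 7096, 7568], ¬ (NN k).Prime := by
  intro k hk
  simp only [List.mem_cons, List.not_mem_nil, or_false] at hk
  rcases hk with rfl | rfl | rfl | rfl | rfl | rfl | rfl | rfl | rfl | rfl | rfl | rfl | rfl | rfl | rfl | rfl | rfl | rfl | rfl | rfl | rfl | rfl | rfl | rfl | rfl | rfl | rfl | rfl | rfl | rfl | rfl | rfl | rfl | rfl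
  · exact not_prime_of_ftest _ _ _ t91
  · exact not_prime_of_ftest _ _ _ t111
  · exact not_prime_of_ftest _ _ _ t112
  · exact not_prime_of_ftest _ _ _ t335
  · exact not_prime_of_ftest _ _ _ t406
  · exact not_prime_of_ftest _ _ _ t1099
  · exact not_prime_of_ftest _ _ _ t1145
  · exact not_prime_of_ftest _ _ _ t1154
  · exact not_prime_of_ftest _ _ _ t1474
  · exact not_prime_of_ftest _ _ _ t2376
  · exact not_prime_of_ftest _ _ _ t2428
  · exact not_prime_of_ftest _ _ _ t2658
  · exact not_prime_of_ftest _ _ _ t3002
  · exact not_prime_of_ftest _ _ _ t3317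
  · exact not_prime_of_ftest _ _ _ t3492
  · exact not_prime_of_ftest _ _ _ t3660
  · exact not_prime_of_ftest _ _ _ t3975
  · exact not_prime_of_ftest _ _ _ t4275
  · exact not_prime_of_ftest _ _ _ t4424
  · exact not_prime_of_ftest _ _ _ t4483
  · exact not_prime_of_ftest _ _ _ t4556
  · exact not_prime_of_ftest _ _ _ t4595
  · exact not_prime_of_ftest _ _ _ t4908
  · exact not_prime_of_ftest _ _ _ t4995
  · exact not_prime_of_ftest _ _ _ t5146
  · exact not_prime_of_ftest _ _ _ t5237
  · exact not_prime_of_ftest _ _ _ t6028
  · exact not_prime_of_ftest _ _ _ t6097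
  · exact not_prime_of_ftest _ _ _ t6126
  · exact not_prime_of_ftest _ _ _ t6560
  · exact not_prime_of_ftest _ _ _ t6677
  · exact not_prime_of_ftest _ _ _ t7076
  · exact not_prime_of_ftest _ _ _ t7096
  · exact not_prime_of_ftest _ _ _ t7568

end Pool.Agent.Q256.TotB.P29
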