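import Pool.Agent.Q256.TotB.Def

set_option autoImplicit false

/-! Fermat tests to the base 2 (part 3). -/

namespace Pool.Agent.Q256.TotB.P3

open Pool.Agent.Q256.Tot

def t24 : ftest (NN 24) 12 2091 = true := by decide +kernel
def t200 : ftest (NN 200) 12 3532 = true := by decide +kernel
def t480 : ftest (NN 480) 12 3958 = true := by decide +kernel
def t578 : ftest (NN 578) 12 3214 = true := by decide +kernel
def t717 : ftest (NN 717) 13 8149 = true := by decide +kernel
def t986 : ftest (NN 986) 13 4105 = true := by decide +kernel
def t1360 : ftest (NN 1360) 12 2688 = true := by decide +kernel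
def t1435 : ftest (NN 1435) 13 4595 = true := by decide +kernel
def t1516 : ftest (NN 1516) 12 2327 = true := by decide +kernel
def t1789 : ftest (NN 1789) 13 5221 = true := by decide +kernel
def t2595 : ftest (NN 2595) 13 7079 = true := by decide +kernel
def t2641 : ftest (NN 2641) 13 4367 = true := by decide +kernel
def t2752 : ftest (NN 2752) 12 2059 = true := by decide +kernel
def t2790 : ftest (NN 2790) 12 3433 = true := by decide +kernel
def t2891 : ftest (NN 2891) 13 5176 = true := by decide +kernel
def t2907 : ftest (NN 2907) 13 6474 = true := by decide +kernel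
def t3331 : ftest (NN 3331) 12 3688 = true := by decide +kernel
def t3371 : ftest (NN 3371) 13 6178 = true := by decide +kernel
def t5166 : ftest (NN 5166) 11 1593 = true := by decide +kernel
def t5263 : ftest (NN 5263) 11 1856 = true := by decide +kernel
def t5411 : ftest (NN 5411) 12 2886 = true := by decide +kernel
def t5482 : ftest (NN 5482) 10 1008 = true := by decide +kernel
def t5511 : ftest (NN 5511) 12 3078 = true := by decide +kernel
def t5678 : ftest (NN 5678) 11 1187 = true := by decide +kernel
def t5795 : ftest (NN 5795) 12 2533 = true := by decide +kernel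
def t5802 : ftest (NN 5802) 11 1296 = true := by decide +kernel
def t6057 : ftest (NN 6057) 12 2405 = true := by decide +kernel
def t6274 : ftest (NN 6274) 10 683 = true := by decide +kernel
def t6425 : ftest (NN 6425) 11 1839 = true := by decide +kernel
def t6599 : ftest (NN 6599) 11 1468 = true := by decide +kernel
def t6796 : ftest (NN 6796) 9 384 = true := by decide +kernel
def t6907 : ftest (NN 6907) 10 723 = true := by decide +kernel
def t7334 : ftest (NN 7334) 8 204 = true := by decide +kernel
def t7406 : ftest (NN 7406) 7 118 = true := by decide +kernel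

theorem all : ∀ k ∈ [24, 200, 480, 578, 717, 986, 1360, 1435, 1516, 1789, 2595, 2641, 2752, 2790, 2891, 2907, 3331, 3371, 5166, 5263, 5411, 5482, 5511, 5678, 5795, 5802, 6057, 6274, 6425, 6599, 6796, 6907, 7334, 7406], ¬ (NN k).Prime := by
  intro k hk
  simp only [List.mem_cons, List.not_mem_nil, or_false] at hk
  rcases hk with rfl | rfl | rfl | rfl | rfl | rfl | rfl | rfl | rfl | rfl | rfl | rfl | rfl | rfl | rfl | rfl | rfl | rfl | rfl | rfl | rfl | rfl | rfl | rfl | rfl | rfl | rfl | rfl | rfl | rfl | rfl | rfl | rfl | rfl
  · exact not_prime_of_ftest _ _ _ t24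
  · exact not_prime_of_ftest _ _ _ t200
  · exact not_prime_of_ftest _ _ _ t480
  · exact not_prime_of_ftest _ _ _ t578
  · exact not_prime_of_ftest _ _ _ t717
  · exact not_prime_of_ftest _ _ _ t986
  · exact not_prime_of_ftest _ _ _ t1360
  · exact not_prime_of_ftest _ _ _ t1435
  · exact not_prime_of_ftest _ _ _ t1516
  · exact not_prime_of_ftest _ _ _ t1789
  · exact not_prime_of_ftest _ _ _ t2595
  · exact not_prime_of_ftest _ _ _ t2641
  · exact not_prime_of_ftest _ _ _ t2752
  · exact not_prime_of_ftest _ _ _ t2790
  · exact not_prime_of_ftest _ _ _ t2891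
  · exact not_prime_of_ftest _ _ _ t2907
  · exact not_prime_of_ftest _ _ _ t3331
  · exact not_prime_of_ftest _ _ _ t3371
  · exact not_prime_of_ftest _ _ _ t5166
  · exact not_prime_of_ftest _ _ _ t5263
  · exact not_prime_of_ftest _ _ _ t5411
  · exact not_prime_of_ftest _ _ _ t5482
  · exact not_prime_of_ftest _ _ _ t5511
  · exact not_prime_of_ftest _ _ _ t5678
  · exact not_prime_of_ftest _ _ _ t5795
  · exact not_prime_of_ftest _ _ _ t5802
  · exact not_prime_of_ftest _ _ _ t6057
  · exact not_prime_of_ftest _ _ _ t6274
  · exact not_prime_of_ftest _ _ _ t6425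
  · exact not_prime_of_ftest _ _ _ t6599
  · exact not_prime_of_ftest _ _ _ t6796
  · exact not_prime_of_ftest _ _ _ t6907
  · exact not_prime_of_ftest _ _ _ t7334
  · exact not_prime_of_ftest _ _ _ t7406

end Pool.Agent.Q256.TotB.P3
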