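import Pool.Agent.Q256.TotB.Def

set_option autoImplicit false

/-! Fermat tests to the base 2 (part 30). -/

namespace Pool.Agent.Q256.TotB.P30

open Pool.Agent.Q256.Tot

def t192 : ftest (NN 192) 12 3429 = true := by decide +kernel
def t419 : ftest (NN 419) 13 7622 = true := by decide +kernel
def t584 : ftest (NN 584) 12 3752 = true := by decide +kernel
def t913 : ftest (NN 913) 13 4330 = true := by decide +kernel
def t1090 : ftest (NN 1090) 12 2590 = true := by decide +kernel
def t1299 : ftest (NN 1299) 13 7682 = true := by decide +kernel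
def t1330 : ftest (NN 1330) 12 2306 = true := by decide +kernel
def t1405 : ftest (NN 1405) 13 5366 = true := by decide +kernel
def t1598 : ftest (NN 1598) 12 3184 = true := by decide +kernel
def t1714 : ftest (NN 1714) 12 2366 = true := by decide +kernel
def t2170 : ftest (NN 2170) 12 2097 = true := by decide +kernel
def t2289 : ftest (NN 2289) 13 6330 = true := by decide +kernel
def t3062 : ftest (NN 3062) 12 3129 = true := by decide +kernel
def t3291 : ftest (NN 3291) 13 6277 = true := by decide +kernel
def t3452 : ftest (NN 3452) 12 2705 = true := by decide +kernel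
def t3909 : ftest (NN 3909) 13 5050 = true := by decide +kernel
def t4291 : ftest (NN 4291) 12 2826 = true := by decide +kernel
def t4347 : ftest (NN 4347) 13 4190 = true := by decide +kernel
def t4413 : ftest (NN 4413) 12 3816 = true := by decide +kernel
def t4539 : ftest (NN 4539) 13 4631 = true := by decide +kernel
def t4864 : ftest (NN 4864) 11 1386 = true := by decide +kernel
def t4880 : ftest (NN 4880) 12 2073 = true := by decide +kernel
def t5042 : ftest (NN 5042) 11 1829 = true := by decide +kernel
def t5192 : ftest (NN 5192) 11 1847 = true := by decide +kernel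
def t5295 : ftest (NN 5295) 12 3546 = true := by decide +kernel
def t5510 : ftest (NN 5510) 11 1615 = true := by decide +kernel
def t5542 : ftest (NN 5542) 10 935 = true := by decide +kernel
def t5618 : ftest (NN 5618) 11 1223 = true := by decide +kernel
def t6055 : ftest (NN 6055) 11 1359 = true := by decide +kernel
def t6392 : ftest (NN 6392) 10 836 = true := by decide +kernel
def t6622 : ftest (NN 6622) 9 421 = true := by decide +kernel
def t7039 : ftest (NN 7039) 10 577 = true := by decide +kernel
def t7284 : ftest (NN 7284) 8 233 = true := by decide +kernel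
def t7458 : ftest (NN 7458) 7 79 = true := by decide +kernel

theorem all : ∀ k ∈ [192, 419, 584, 913, 1090, 1299, 1330, 1405, 1598, 1714, 2170, 2289, 3062, 3291, 3452, 3909, 4291, 4347, 4413, 4539, 4864, 4880, 5042, 5192, 5295, 5510, 5542, 5618, 6055, 6392, 6622, 7039, 7284, 7458], ¬ (NN k).Prime := by
  intro k hk
  simp only [List.mem_cons, List.not_mem_nil, or_false] at hk
  rcases hk with rfl | rfl | rfl | rfl | rfl | rfl | rfl | rfl | rfl | rfl | rfl | rfl | rfl | rfl | rfl | rfl | rfl | rfl | rfl | rfl | rfl | rfl | rfl | rfl | rfl | rfl | rfl | rfl | rfl | rfl | rfl | rfl | rfl | rfl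
  · exact not_prime_of_ftest _ _ _ t192
  · exact not_prime_of_ftest _ _ _ t419
  · exact not_prime_of_ftest _ _ _ t584
  · exact not_prime_of_ftest _ _ _ t913
  · exact not_prime_of_ftest _ _ _ t1090
  · exact not_prime_of_ftest _ _ _ t1299
  · exact not_prime_of_ftest _ _ _ t1330
  · exact not_prime_of_ftest _ _ _ t1405
  · exact not_prime_of_ftest _ _ _ t1598
  · exact not_prime_of_ftest _ _ _ t1714
  · exact not_prime_of_ftest _ _ _ t2170
  · exact not_prime_of_ftest _ _ _ t2289
  · exact not_prime_of_ftest _ _ _ t3062
  · exact not_prime_of_ftest _ _ _ t3291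
  · exact not_prime_of_ftest _ _ _ t3452
  · exact not_prime_of_ftest _ _ _ t3909
  · exact not_prime_of_ftest _ _ _ t4291
  · exact not_prime_of_ftest _ _ _ t4347
  · exact not_prime_of_ftest _ _ _ t4413
  · exact not_prime_of_ftest _ _ _ t4539
  · exact not_prime_of_ftest _ _ _ t4864
  · exact not_prime_of_ftest _ _ _ t4880
  · exact not_prime_of_ftest _ _ _ t5042
  · exact not_prime_of_ftest _ _ _ t5192
  · exact not_prime_of_ftest _ _ _ t5295
  · exact not_prime_of_ftest _ _ _ t5510
  · exact not_prime_of_ftest _ _ _ t5542
  · exact not_prime_of_ftest _ _ _ t5618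
  · exact not_prime_of_ftest _ _ _ t6055
  · exact not_prime_of_ftest _ _ _ t6392
  · exact not_prime_of_ftest _ _ _ t6622
  · exact not_prime_of_ftest _ _ _ t7039
  · exact not_prime_of_ftest _ _ _ t7284
  · exact not_prime_of_ftest _ _ _ t7458

end Pool.Agent.Q256.TotB.P30
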