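import Pool.Agent.Q256.TotB.Def

set_option autoImplicit false

/-! Fermat tests to the base 2 (part 31). -/

namespace Pool.Agent.Q256.TotB.P31

open Pool.Agent.Q256.Tot

def t245 : ftest (NN 245) 13 6244 = true := by decide +kernel
def t345 : ftest (NN 345) 13 7637 = true := by decide +kernel
def t464 : ftest (NN 464) 12 3617 = true := by decide +kernel
def t808 : ftest (NN 808) 12 2166 = true := by decide +kernel
def t1043 : ftest (NN 1043) 13 4815 = true := by decide +kernel
def t1255 : ftest (NN 1255) 13 5432 = true := by decide +kernel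
def t1631 : ftest (NN 1631) 13 6341 = true := by decide +kernel
def t1697 : ftest (NN 1697) 13 7663 = true := by decide +kernel
def t2028 : ftest (NN 2028) 12 3034 = true := by decide +kernel
def t2370 : ftest (NN 2370) 12 3657 = true := by decide +kernel
def t2414 : ftest (NN 2414) 12 3340 = true := by decide +kernel
def t3102 : ftest (NN 3102) 12 3253 = true := by decide +kernel
def t3145 : ftest (NN 3145) 13 4301 = true := by decide +kernel
def t3746 : ftest (NN 3746) 12 2661 = true := by decide +kernel
def t3818 : ftest (NN 3818) 11 2001 = true := by decide +kernel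
def t4161 : ftest (NN 4161) 13 4895 = true := by decide +kernel
def t4272 : ftest (NN 4272) 12 2499 = true := by decide +kernel
def t4634 : ftest (NN 4634) 11 1920 = true := by decide +kernel
def t4656 : ftest (NN 4656) 12 2232 = true := by decide +kernel
def t4931 : ftest (NN 4931) 12 4075 = true := by decide +kernel
def t4997 : ftest (NN 4997) 12 3980 = true := by decide +kernel
def t5369 : ftest (NN 5369) 12 2939 = true := by decide +kernel
def t5495 : ftest (NN 5495) 12 2462 = true := by decide +kernel
def t5701 : ftest (NN 5701) 11 1799 = true := by decide +kernel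
def t5839 : ftest (NN 5839) 11 1629 = true := by decide +kernel
def t6138 : ftest (NN 6138) 10 883 = true := by decide +kernel
def t6363 : ftest (NN 6363) 11 1329 = true := by decide +kernel
def t6531 : ftest (NN 6531) 11 1428 = true := by decide +kernel
def t6532 : ftest (NN 6532) 9 509 = true := by decide +kernel
def t6619 : ftest (NN 6619) 10 916 = true := by decide +kernel
def t6623 : ftest (NN 6623) 11 1221 = true := by decide +kernel
def t6754 : ftest (NN 6754) 9 441 = true := by decide +kernel
def t7405 : ftest (NN 7405) 8 195 = true := by decide +kernel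
def t7492 : ftest (NN 7492) 6 54 = true := by decide +kernel

theorem all : ∀ k ∈ [245, 345, 464, 808, 1043, 1255, 1631, 1697, 2028, 2370, 2414, 3102, 3145, 3746, 3818, 4161, 4272, 4634, 4656, 4931, 4997, 5369, 5495, 5701, 5839, 6138, 6363, 6531, 6532, 6619, 6623, 6754, 7405, 7492], ¬ (NN k).Prime := by
  intro k hk
  simp only [List.mem_cons, List.not_mem_nil, or_false] at hk
  rcases hk with rfl | rfl | rfl | rfl | rfl | rfl | rfl | rfl | rfl | rfl | rfl | rfl | rfl | rfl | rfl | rfl | rfl | rfl | rfl | rfl | rfl | rfl | rfl | rfl | rfl | rfl | rfl | rfl | rfl | rfl | rfl | rfl | rfl | rfl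
  · exact not_prime_of_ftest _ _ _ t245
  · exact not_prime_of_ftest _ _ _ t345
  · exact not_prime_of_ftest _ _ _ t464
  · exact not_prime_of_ftest _ _ _ t808
  · exact not_prime_of_ftest _ _ _ t1043
  · exact not_prime_of_ftest _ _ _ t1255
  · exact not_prime_of_ftest _ _ _ t1631
  · exact not_prime_of_ftest _ _ _ t1697
  · exact not_prime_of_ftest _ _ _ t2028
  · exact not_prime_of_ftest _ _ _ t2370
  · exact not_prime_of_ftest _ _ _ t2414
  · exact not_prime_of_ftest _ _ _ t3102
  · exact not_prime_of_ftest _ _ _ t3145
  · exact not_prime_of_ftest _ _ _ t3746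
  · exact not_prime_of_ftest _ _ _ t3818
  · exact not_prime_of_ftest _ _ _ t4161
  · exact not_prime_of_ftest _ _ _ t4272
  · exact not_prime_of_ftest _ _ _ t4634
  · exact not_prime_of_ftest _ _ _ t4656
  · exact not_prime_of_ftest _ _ _ t4931
  · exact not_prime_of_ftest _ _ _ t4997
  · exact not_prime_of_ftest _ _ _ t5369
  · exact not_prime_of_ftest _ _ _ t5495
  · exact not_prime_of_ftest _ _ _ t5701
  · exact not_prime_of_ftest _ _ _ t5839
  · exact not_prime_of_ftest _ _ _ t6138
  · exact not_prime_of_ftest _ _ _ t6363
  · exact not_prime_of_ftest _ _ _ t6531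
  · exact not_prime_of_ftest _ _ _ t6532
  · exact not_prime_of_ftest _ _ _ t6619
  · exact not_prime_of_ftest _ _ _ t6623
  · exact not_prime_of_ftest _ _ _ t6754
  · exact not_prime_of_ftest _ _ _ t7405
  · exact not_prime_of_ftest _ _ _ t7492

end Pool.Agent.Q256.TotB.P31
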