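import Pool.Agent.Q256.TotB.Def

set_option autoImplicit false

/-! Fermat tests to the base 2 (part 4). -/

namespace Pool.Agent.Q256.TotB.P4

open Pool.Agent.Q256.Tot

def t13 : ftest (NN 13) 11 1905 = true := by decide +kernel
def t114 : ftest (NN 114) 12 3082 = true := by decide +kernel
def t543 : ftest (NN 543) 13 6399 = true := by decide +kernel
def t923 : ftest (NN 923) 13 6208 = true := by decide +kernel
def t1014 : ftest (NN 1014) 12 3867 = true := by decide +kernel
def t1265 : ftest (NN 1265) 13 8146 = true := by decide +kernel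
def t1279 : ftest (NN 1279) 13 5421 = true := by decide +kernel
def t1444 : ftest (NN 1444) 12 2689 = true := by decide +kernel
def t1518 : ftest (NN 1518) 12 3204 = true := by decide +kernel
def t1959 : ftest (NN 1959) 13 7089 = true := by decide +kernel
def t2026 : ftest (NN 2026) 12 2523 = true := by decide +kernel
def t2332 : ftest (NN 2332) 12 2419 = true := by decide +kernel
def t2390 : ftest (NN 2390) 12 3459 = true := by decide +kernel
def t2684 : ftest (NN 2684) 12 3487 = true := by decide +kernel
def t3229 : ftest (NN 3229) 13 4234 = true := by decide +kernel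
def t3268 : ftest (NN 3268) 11 1683 = true := by decide +kernel
def t3361 : ftest (NN 3361) 13 4126 = true := by decide +kernel
def t3408 : ftest (NN 3408) 12 2114 = true := by decide +kernel
def t3436 : ftest (NN 3436) 11 2022 = true := by decide +kernel
def t3470 : ftest (NN 3470) 12 2883 = true := by decide +kernel
def t3717 : ftest (NN 3717) 13 4859 = true := by decide +kernel
def t3844 : ftest (NN 3844) 11 1717 = true := by decide +kernel
def t4282 : ftest (NN 4282) 11 1522 = true := by decide +kernel
def t4359 : ftest (NN 4359) 13 4880 = true := by decide +kernel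
def t5007 : ftest (NN 5007) 12 3787 = true := by decide +kernel
def t5644 : ftest (NN 5644) 10 1012 = true := by decide +kernel
def t6117 : ftest (NN 6117) 12 2313 = true := by decide +kernel
def t6235 : ftest (NN 6235) 11 1263 = true := by decide +kernel
def t6543 : ftest (NN 6543) 11 1143 = true := by decide +kernel
def t7025 : ftest (NN 7025) 10 900 = true := by decide +kernel
def t7092 : ftest (NN 7092) 9 386 = true := by decide +kernel
def t7273 : ftest (NN 7273) 8 233 = true := by decide +kernel
def t7275 : ftest (NN 7275) 9 502 = true := by decide +kernel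
def t7478 : ftest (NN 7478) 7 66 = true := by decide +kernel

theorem all : ∀ k ∈ [13, 114, 543, 923, 1014, 1265, 1279, 1444, 1518, 1959, 2026, 2332, 2390, 2684, 3229, 3268, 3361, 3408, 3436, 3470, 3717, 3844, 4282, 4359, 5007, 5644, 6117, 6235, 6543, 7025, 7092, 7273, 7275, 7478], ¬ (NN k).Prime := by
  intro k hk
  simp only [List.mem_cons, List.not_mem_nil, or_false] at hk
  rcases hk with rfl | rfl | rfl | rfl | rfl | rfl | rfl | rfl | rfl | rfl | rfl | rfl | rfl | rfl | rfl | rfl | rfl | rfl | rfl | rfl | rfl | rfl | rfl | rfl | rfl | rfl | rfl | rfl | rfl | rfl | rfl | rfl | rfl | rfl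
  · exact not_prime_of_ftest _ _ _ t13
  · exact not_prime_of_ftest _ _ _ t114
  · exact not_prime_of_ftest _ _ _ t543
  · exact not_prime_of_ftest _ _ _ t923
  · exact not_prime_of_ftest _ _ _ t1014
  · exact not_prime_of_ftest _ _ _ t1265
  · exact not_prime_of_ftest _ _ _ t1279
  · exact not_prime_of_ftest _ _ _ t1444
  · exact not_prime_of_ftest _ _ _ t1518
  · exact not_prime_of_ftest _ _ _ t1959
  · exact not_prime_of_ftest _ _ _ t2026
  · exact not_prime_of_ftest _ _ _ t2332
  · exact not_prime_of_ftest _ _ _ t2390
  · exact not_prime_of_ftest _ _ _ t2684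
  · exact not_prime_of_ftest _ _ _ t3229
  · exact not_prime_of_ftest _ _ _ t3268
  · exact not_prime_of_ftest _ _ _ t3361
  · exact not_prime_of_ftest _ _ _ t3408
  · exact not_prime_of_ftest _ _ _ t3436
  · exact not_prime_of_ftest _ _ _ t3470
  · exact not_prime_of_ftest _ _ _ t3717
  · exact not_prime_of_ftest _ _ _ t3844
  · exact not_prime_of_ftest _ _ _ t4282
  · exact not_prime_of_ftest _ _ _ t4359
  · exact not_prime_of_ftest _ _ _ t5007
  · exact not_prime_of_ftest _ _ _ t5644
  · exact not_prime_of_ftest _ _ _ t6117
  · exact not_prime_of_ftest _ _ _ t6235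
  · exact not_prime_of_ftest _ _ _ t6543
  · exact not_prime_of_ftest _ _ _ t7025
  · exact not_prime_of_ftest _ _ _ t7092
  · exact not_prime_of_ftest _ _ _ t7273
  · exact not_prime_of_ftest _ _ _ t7275
  · exact not_prime_of_ftest _ _ _ t7478

end Pool.Agent.Q256.TotB.P4
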