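import Pool.Agent.Q256.TotB.Def

set_option autoImplicit false

/-! Fermat tests to the base 2 (part 5). -/

namespace Pool.Agent.Q256.TotB.P5

open Pool.Agent.Q256.Tot

def t229 : ftest (NN 229) 13 4356 = true := by decide +kernel
def t628 : ftest (NN 628) 12 2084 = true := by decide +kernel
def t1367 : ftest (NN 1367) 13 8102 = true := by decide +kernel
def t1819 : ftest (NN 1819) 13 5200 = true := by decide +kernel
def t1982 : ftest (NN 1982) 12 3838 = true := by decide +kernel
def t2337 : ftest (NN 2337) 13 7142 = true := by decide +kernel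
def t2676 : ftest (NN 2676) 12 3486 = true := by decide +kernel
def t2708 : ftest (NN 2708) 12 2739 = true := by decide +kernel
def t2767 : ftest (NN 2767) 13 4593 = true := by decide +kernel
def t2955 : ftest (NN 2955) 13 6458 = true := by decide +kernel
def t3094 : ftest (NN 3094) 11 1846 = true := by decide +kernel
def t3098 : ftest (NN 3098) 12 2600 = true := by decide +kernel
def t3189 : ftest (NN 3189) 13 6206 = true := by decide +kernel
def t3618 : ftest (NN 3618) 12 2343 = true := by decide +kernel
def t4057 : ftest (NN 4057) 12 3178 = true := by decide +kernel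
def t4139 : ftest (NN 4139) 13 5181 = true := by decide +kernel
def t4768 : ftest (NN 4768) 11 1126 = true := by decide +kernel
def t4834 : ftest (NN 4834) 11 1324 = true := by decide +kernel
def t4844 : ftest (NN 4844) 11 1802 = true := by decide +kernel
def t4869 : ftest (NN 4869) 13 4164 = true := by decide +kernel
def t5015 : ftest (NN 5015) 12 3782 = true := by decide +kernel
def t5219 : ftest (NN 5219) 12 3466 = true := by decide +kernel
def t5329 : ftest (NN 5329) 12 2323 = true := by decide +kernel
def t5391 : ftest (NN 5391) 12 3145 = true := by decide +kernel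
def t5736 : ftest (NN 5736) 11 1444 = true := by decide +kernel
def t5811 : ftest (NN 5811) 12 2778 = true := by decide +kernel
def t5894 : ftest (NN 5894) 11 1035 = true := by decide +kernel
def t6027 : ftest (NN 6027) 12 2093 = true := by decide +kernel
def t6031 : ftest (NN 6031) 11 1622 = true := by decide +kernel
def t6412 : ftest (NN 6412) 10 533 = true := by decide +kernel
def t6903 : ftest (NN 6903) 10 869 = true := by decide +kernel
def t6994 : ftest (NN 6994) 9 289 = true := by decide +kernel
def t7347 : ftest (NN 7347) 9 387 = true := by decide +kernel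

theorem all : ∀ k ∈ [229, 628, 1367, 1819, 1982, 2337, 2676, 2708, 2767, 2955, 3094, 3098, 3189, 3618, 4057, 4139, 4768, 4834, 4844, 4869, 5015, 5219, 5329, 5391, 5736, 5811, 5894, 6027, 6031, 6412, 6903, 6994, 7347], ¬ (NN k).Prime := by
  intro k hk
  simp only [List.mem_cons, List.not_mem_nil, or_false] at hk
  rcases hk with rfl | rfl | rfl | rfl | rfl | rfl | rfl | rfl | rfl | rfl | rfl | rfl | rfl | rfl | rfl | rfl | rfl | rfl | rfl | rfl | rfl | rfl | rfl | rfl | rfl | rfl | rfl | rfl | rfl | rfl | rfl | rfl | rfl
  · exact not_prime_of_ftest _ _ _ t229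
  · exact not_prime_of_ftest _ _ _ t628
  · exact not_prime_of_ftest _ _ _ t1367
  · exact not_prime_of_ftest _ _ _ t1819
  · exact not_prime_of_ftest _ _ _ t1982
  · exact not_prime_of_ftest _ _ _ t2337
  · exact not_prime_of_ftest _ _ _ t2676
  · exact not_prime_of_ftest _ _ _ t2708
  · exact not_prime_of_ftest _ _ _ t2767
  · exact not_prime_of_ftest _ _ _ t2955
  · exact not_prime_of_ftest _ _ _ t3094
  · exact not_prime_of_ftest _ _ _ t3098
  · exact not_prime_of_ftest _ _ _ t3189
  · exact not_prime_of_ftest _ _ _ t3618
  · exact not_prime_of_ftest _ _ _ t4057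
  · exact not_prime_of_ftest _ _ _ t4139
  · exact not_prime_of_ftest _ _ _ t4768
  · exact not_prime_of_ftest _ _ _ t4834
  · exact not_prime_of_ftest _ _ _ t4844
  · exact not_prime_of_ftest _ _ _ t4869
  · exact not_prime_of_ftest _ _ _ t5015
  · exact not_prime_of_ftest _ _ _ t5219
  · exact not_prime_of_ftest _ _ _ t5329
  · exact not_prime_of_ftest _ _ _ t5391
  · exact not_prime_of_ftest _ _ _ t5736
  · exact not_prime_of_ftest _ _ _ t5811
  · exact not_prime_of_ftest _ _ _ t5894
  · exact not_prime_of_ftest _ _ _ t6027
  · exact not_prime_of_ftest _ _ _ t6031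
  · exact not_prime_of_ftest _ _ _ t6412
  · exact not_prime_of_ftest _ _ _ t6903
  · exact not_prime_of_ftest _ _ _ t6994
  · exact not_prime_of_ftest _ _ _ t7347

end Pool.Agent.Q256.TotB.P5
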