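import Pool.Agent.Q256.TotB.Def

set_option autoImplicit false

/-! Fermat tests to the base 2 (part 6). -/

namespace Pool.Agent.Q256.TotB.P6

open Pool.Agent.Q256.Tot

def t292 : ftest (NN 292) 12 2362 = true := by decide +kernel
def t295 : ftest (NN 295) 12 3942 = true := by decide +kernel
def t544 : ftest (NN 544) 12 2665 = true := by decide +kernel
def t597 : ftest (NN 597) 13 8061 = true := by decide +kernel
def t866 : ftest (NN 866) 13 4101 = true := by decide +kernel
def t1195 : ftest (NN 1195) 13 5446 = true := by decide +kernel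
def t1418 : ftest (NN 1418) 12 3227 = true := by decide +kernel
def t1519 : ftest (NN 1519) 13 4314 = true := by decide +kernel
def t1553 : ftest (NN 1553) 13 5939 = true := by decide +kernel
def t1881 : ftest (NN 1881) 13 7149 = true := by decide +kernel
def t2239 : ftest (NN 2239) 13 4960 = true := by decide +kernel
def t2348 : ftest (NN 2348) 12 2913 = true := by decide +kernel
def t2575 : ftest (NN 2575) 13 4727 = true := by decide +kernel
def t2967 : ftest (NN 2967) 13 6664 = true := by decide +kernel
def t3250 : ftest (NN 3250) 12 2102 = true := by decide +kernel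
def t3382 : ftest (NN 3382) 12 2054 = true := by decide +kernel
def t3420 : ftest (NN 3420) 12 3054 = true := by decide +kernel
def t3698 : ftest (NN 3698) 12 2301 = true := by decide +kernel
def t3835 : ftest (NN 3835) 12 3699 = true := by decide +kernel
def t4518 : ftest (NN 4518) 11 1860 = true := by decide +kernel
def t4962 : ftest (NN 4962) 11 1844 = true := by decide +kernel
def t4991 : ftest (NN 4991) 12 3356 = true := by decide +kernel
def t5099 : ftest (NN 5099) 12 3605 = true := by decide +kernel
def t5223 : ftest (NN 5223) 12 2596 = true := by decide +kernel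
def t5528 : ftest (NN 5528) 11 1270 = true := by decide +kernel
def t5584 : ftest (NN 5584) 11 1035 = true := by decide +kernel
def t5761 : ftest (NN 5761) 11 1576 = true := by decide +kernel
def t6007 : ftest (NN 6007) 11 1508 = true := by decide +kernel
def t6010 : ftest (NN 6010) 10 824 = true := by decide +kernel
def t6103 : ftest (NN 6103) 11 1134 = true := by decide +kernel
def t6648 : ftest (NN 6648) 10 586 = true := by decide +kernel
def t7171 : ftest (NN 7171) 9 444 = true := by decide +kernel
def t7216 : ftest (NN 7216) 8 194 = true := by decide +kernel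

theorem all : ∀ k ∈ [292, 295, 544, 597, 866, 1195, 1418, 1519, 1553, 1881, 2239, 2348, 2575, 2967, 3250, 3382, 3420, 3698, 3835, 4518, 4962, 4991, 5099, 5223, 5528, 5584, 5761, 6007, 6010, 6103, 6648, 7171, 7216], ¬ (NN k).Prime := by
  intro k hk
  simp only [List.mem_cons, List.not_mem_nil, or_false] at hk
  rcases hk with rfl | rfl | rfl | rfl | rfl | rfl | rfl | rfl | rfl | rfl | rfl | rfl | rfl | rfl | rfl | rfl | rfl | rfl | rfl | rfl | rfl | rfl | rfl | rfl | rfl | rfl | rfl | rfl | rfl | rfl | rfl | rfl | rfl
  · exact not_prime_of_ftest _ _ _ t292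
  · exact not_prime_of_ftest _ _ _ t295
  · exact not_prime_of_ftest _ _ _ t544
  · exact not_prime_of_ftest _ _ _ t597
  · exact not_prime_of_ftest _ _ _ t866
  · exact not_prime_of_ftest _ _ _ t1195
  · exact not_prime_of_ftest _ _ _ t1418
  · exact not_prime_of_ftest _ _ _ t1519
  · exact not_prime_of_ftest _ _ _ t1553
  · exact not_prime_of_ftest _ _ _ t1881
  · exact not_prime_of_ftest _ _ _ t2239
  · exact not_prime_of_ftest _ _ _ t2348
  · exact not_prime_of_ftest _ _ _ t2575
  · exact not_prime_of_ftest _ _ _ t2967
  · exact not_prime_of_ftest _ _ _ t3250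
  · exact not_prime_of_ftest _ _ _ t3382
  · exact not_prime_of_ftest _ _ _ t3420
  · exact not_prime_of_ftest _ _ _ t3698
  · exact not_prime_of_ftest _ _ _ t3835
  · exact not_prime_of_ftest _ _ _ t4518
  · exact not_prime_of_ftest _ _ _ t4962
  · exact not_prime_of_ftest _ _ _ t4991
  · exact not_prime_of_ftest _ _ _ t5099
  · exact not_prime_of_ftest _ _ _ t5223
  · exact not_prime_of_ftest _ _ _ t5528
  · exact not_prime_of_ftest _ _ _ t5584
  · exact not_prime_of_ftest _ _ _ t5761
  · exact not_prime_of_ftest _ _ _ t6007
  · exact not_prime_of_ftest _ _ _ t6010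
  · exact not_prime_of_ftest _ _ _ t6103
  · exact not_prime_of_ftest _ _ _ t6648
  · exact not_prime_of_ftest _ _ _ t7171
  · exact not_prime_of_ftest _ _ _ t7216

end Pool.Agent.Q256.TotB.P6
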