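import Pool.Agent.Q256.TotB.Def

set_option autoImplicit false

/-! Fermat tests to the base 2 (part 7). -/

namespace Pool.Agent.Q256.TotB.P7

open Pool.Agent.Q256.Tot

def t23 : ftest (NN 23) 12 3229 = true := by decide +kernel
def t1202 : ftest (NN 1202) 12 3916 = true := by decide +kernel
def t1455 : ftest (NN 1455) 13 8056 = true := by decide +kernel
def t1960 : ftest (NN 1960) 12 2167 = true := by decide +kernel
def t2003 : ftest (NN 2003) 13 6122 = true := by decide +kernel
def t2063 : ftest (NN 2063) 13 5287 = true := by decide +kernel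
def t2225 : ftest (NN 2225) 13 7174 = true := by decide +kernel
def t2413 : ftest (NN 2413) 12 3710 = true := by decide +kernel
def t2527 : ftest (NN 2527) 12 4071 = true := by decide +kernel
def t2659 : ftest (NN 2659) 13 4439 = true := by decide +kernel
def t2998 : ftest (NN 2998) 11 1665 = true := by decide +kernel
def t3075 : ftest (NN 3075) 13 6537 = true := by decide +kernel
def t3243 : ftest (NN 3243) 13 4551 = true := by decide +kernel
def t3619 : ftest (NN 3619) 12 3353 = true := by decide +kernel
def t3673 : ftest (NN 3673) 12 2986 = true := by decide +kernel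
def t4107 : ftest (NN 4107) 13 5137 = true := by decide +kernel
def t4292 : ftest (NN 4292) 12 2464 = true := by decide +kernel
def t4369 : ftest (NN 4369) 12 3050 = true := by decide +kernel
def t4375 : ftest (NN 4375) 12 2615 = true := by decide +kernel
def t5076 : ftest (NN 5076) 11 1922 = true := by decide +kernel
def t5131 : ftest (NN 5131) 11 1999 = true := by decide +kernel
def t5139 : ftest (NN 5139) 12 3608 = true := by decide +kernel
def t5150 : ftest (NN 5150) 11 1765 = true := by decide +kernel
def t5182 : ftest (NN 5182) 11 1236 = true := by decide +kernel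
def t5313 : ftest (NN 5313) 12 2230 = true := by decide +kernel
def t5474 : ftest (NN 5474) 11 1399 = true := by decide +kernel
def t5560 : ftest (NN 5560) 10 972 = true := by decide +kernel
def t5583 : ftest (NN 5583) 12 2491 = true := by decide +kernel
def t6348 : ftest (NN 6348) 10 760 = true := by decide +kernel
def t6689 : ftest (NN 6689) 11 1336 = true := by decide +kernel
def t6744 : ftest (NN 6744) 10 670 = true := by decide +kernel
def t7058 : ftest (NN 7058) 9 335 = true := by decide +kernel
def t7102 : ftest (NN 7102) 9 261 = true := by decide +kernel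
def t7514 : ftest (NN 7514) 6 60 = true := by decide +kernel

theorem all : ∀ k ∈ [23, 1202, 1455, 1960, 2003, 2063, 2225, 2413, 2527, 2659, 2998, 3075, 3243, 3619, 3673, 4107, 4292, 4369, 4375, 5076, 5131, 5139, 5150, 5182, 5313, 5474, 5560, 5583, 6348, 6689, 6744, 7058, 7102, 7514], ¬ (NN k).Prime := by
  intro k hk
  simp only [List.mem_cons, List.not_mem_nil, or_false] at hk
  rcases hk with rfl | rfl | rfl | rfl | rfl | rfl | rfl | rfl | rfl | rfl | rfl | rfl | rfl | rfl | rfl | rfl | rfl | rfl | rfl | rfl | rfl | rfl | rfl | rfl | rfl | rfl | rfl | rfl | rfl | rfl | rfl | rfl | rfl | rfl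
  · exact not_prime_of_ftest _ _ _ t23
  · exact not_prime_of_ftest _ _ _ t1202
  · exact not_prime_of_ftest _ _ _ t1455
  · exact not_prime_of_ftest _ _ _ t1960
  · exact not_prime_of_ftest _ _ _ t2003
  · exact not_prime_of_ftest _ _ _ t2063
  · exact not_prime_of_ftest _ _ _ t2225
  · exact not_prime_of_ftest _ _ _ t2413
  · exact not_prime_of_ftest _ _ _ t2527
  · exact not_prime_of_ftest _ _ _ t2659
  · exact not_prime_of_ftest _ _ _ t2998
  · exact not_prime_of_ftest _ _ _ t3075
  · exact not_prime_of_ftest _ _ _ t3243
  · exact not_prime_of_ftest _ _ _ t3619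
  · exact not_prime_of_ftest _ _ _ t3673
  · exact not_prime_of_ftest _ _ _ t4107
  · exact not_prime_of_ftest _ _ _ t4292
  · exact not_prime_of_ftest _ _ _ t4369
  · exact not_prime_of_ftest _ _ _ t4375
  · exact not_prime_of_ftest _ _ _ t5076
  · exact not_prime_of_ftest _ _ _ t5131
  · exact not_prime_of_ftest _ _ _ t5139
  · exact not_prime_of_ftest _ _ _ t5150
  · exact not_prime_of_ftest _ _ _ t5182
  · exact not_prime_of_ftest _ _ _ t5313
  · exact not_prime_of_ftest _ _ _ t5474
  · exact not_prime_of_ftest _ _ _ t5560
  · exact not_prime_of_ftest _ _ _ t5583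
  · exact not_prime_of_ftest _ _ _ t6348
  · exact not_prime_of_ftest _ _ _ t6689
  · exact not_prime_of_ftest _ _ _ t6744
  · exact not_prime_of_ftest _ _ _ t7058
  · exact not_prime_of_ftest _ _ _ t7102
  · exact not_prime_of_ftest _ _ _ t7514

end Pool.Agent.Q256.TotB.P7
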