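import Pool.Agent.Q256.TotB.Def

set_option autoImplicit false

/-! Fermat tests to the base 2 (part 8). -/

namespace Pool.Agent.Q256.TotB.P8

open Pool.Agent.Q256.Tot

def t301 : ftest (NN 301) 13 4277 = true := by decide +kernel
def t529 : ftest (NN 529) 13 4889 = true := by decide +kernel
def t573 : ftest (NN 573) 13 6050 = true := by decide +kernel
def t1010 : ftest (NN 1010) 12 3296 = true := by decide +kernel
def t1100 : ftest (NN 1100) 12 4094 = true := by decide +kernel
def t1193 : ftest (NN 1193) 13 6533 = true := by decide +kernel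
def t1457 : ftest (NN 1457) 13 8055 = true := by decide +kernel
def t1620 : ftest (NN 1620) 12 3968 = true := by decide +kernel
def t2146 : ftest (NN 2146) 12 2509 = true := by decide +kernel
def t2277 : ftest (NN 2277) 13 7185 = true := by decide +kernel
def t2326 : ftest (NN 2326) 12 2451 = true := by decide +kernel
def t2354 : ftest (NN 2354) 12 3665 = true := by decide +kernel
def t2372 : ftest (NN 2372) 12 3635 = true := by decide +kernel
def t2852 : ftest (NN 2852) 12 3308 = true := by decide +kernel
def t3360 : ftest (NN 3360) 12 2638 = true := by decide +kernel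
def t3510 : ftest (NN 3510) 12 3002 = true := by decide +kernel
def t3777 : ftest (NN 3777) 13 5456 = true := by decide +kernel
def t4091 : ftest (NN 4091) 13 4825 = true := by decide +kernel
def t4734 : ftest (NN 4734) 12 2178 = true := by decide +kernel
def t4772 : ftest (NN 4772) 11 1957 = true := by decide +kernel
def t5193 : ftest (NN 5193) 12 2952 = true := by decide +kernel
def t5464 : ftest (NN 5464) 11 1082 = true := by decide +kernel
def t5556 : ftest (NN 5556) 11 1570 = true := by decide +kernel
def t5671 : ftest (NN 5671) 11 1966 = true := by decide +kernel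
def t5707 : ftest (NN 5707) 11 1687 = true := by decide +kernel
def t5840 : ftest (NN 5840) 11 1241 = true := by decide +kernel
def t5915 : ftest (NN 5915) 12 2239 = true := by decide +kernel
def t5941 : ftest (NN 5941) 11 1695 = true := by decide +kernel
def t6142 : ftest (NN 6142) 10 757 = true := by decide +kernel
def t6505 : ftest (NN 6505) 11 1085 = true := by decide +kernel
def t7098 : ftest (NN 7098) 9 271 = true := by decide +kernel
def t7169 : ftest (NN 7169) 10 671 = true := by decide +kernel
def t7279 : ftest (NN 7279) 9 329 = true := by decide +kernel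
def t7532 : ftest (NN 7532) 6 41 = true := by decide +kernel

theorem all : ∀ k ∈ [301, 529, 573, 1010, 1100, 1193, 1457, 1620, 2146, 2277, 2326, 2354, 2372, 2852, 3360, 3510, 3777, 4091, 4734, 4772, 5193, 5464, 5556, 5671, 5707, 5840, 5915, 5941, 6142, 6505, 7098, 7169, 7279, 7532], ¬ (NN k).Prime := by
  intro k hk
  simp only [List.mem_cons, List.not_mem_nil, or_false] at hk
  rcases hk with rfl | rfl | rfl | rfl | rfl | rfl | rfl | rfl | rfl | rfl | rfl | rfl | rfl | rfl | rfl | rfl | rfl | rfl | rfl | rfl | rfl | rfl | rfl | rfl | rfl | rfl | rfl | rfl | rfl | rfl | rfl | rfl | rfl | rfl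
  · exact not_prime_of_ftest _ _ _ t301
  · exact not_prime_of_ftest _ _ _ t529
  · exact not_prime_of_ftest _ _ _ t573
  · exact not_prime_of_ftest _ _ _ t1010
  · exact not_prime_of_ftest _ _ _ t1100
  · exact not_prime_of_ftest _ _ _ t1193
  · exact not_prime_of_ftest _ _ _ t1457
  · exact not_prime_of_ftest _ _ _ t1620
  · exact not_prime_of_ftest _ _ _ t2146
  · exact not_prime_of_ftest _ _ _ t2277
  · exact not_prime_of_ftest _ _ _ t2326
  · exact not_prime_of_ftest _ _ _ t2354
  · exact not_prime_of_ftest _ _ _ t2372
  · exact not_prime_of_ftest _ _ _ t2852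
  · exact not_prime_of_ftest _ _ _ t3360
  · exact not_prime_of_ftest _ _ _ t3510
  · exact not_prime_of_ftest _ _ _ t3777
  · exact not_prime_of_ftest _ _ _ t4091
  · exact not_prime_of_ftest _ _ _ t4734
  · exact not_prime_of_ftest _ _ _ t4772
  · exact not_prime_of_ftest _ _ _ t5193
  · exact not_prime_of_ftest _ _ _ t5464
  · exact not_prime_of_ftest _ _ _ t5556
  · exact not_prime_of_ftest _ _ _ t5671
  · exact not_prime_of_ftest _ _ _ t5707
  · exact not_prime_of_ftest _ _ _ t5840
  · exact not_prime_of_ftest _ _ _ t5915
  · exact not_prime_of_ftest _ _ _ t5941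
  · exact not_prime_of_ftest _ _ _ t6142
  · exact not_prime_of_ftest _ _ _ t6505
  · exact not_prime_of_ftest _ _ _ t7098
  · exact not_prime_of_ftest _ _ _ t7169
  · exact not_prime_of_ftest _ _ _ t7279
  · exact not_prime_of_ftest _ _ _ t7532

end Pool.Agent.Q256.TotB.P8
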