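import Pool.Agent.Q256.TotB.Def

set_option autoImplicit false

/-! Fermat tests to the base 2 (part 9). -/

namespace Pool.Agent.Q256.TotB.P9

open Pool.Agent.Q256.Tot

def t42 : ftest (NN 42) 11 1995 = true := by decide +kernel
def t496 : ftest (NN 496) 12 2635 = true := by decide +kernel
def t600 : ftest (NN 600) 12 4031 = true := by decide +kernel
def t1178 : ftest (NN 1178) 12 3267 = true := by decide +kernel
def t1340 : ftest (NN 1340) 12 3638 = true := by decide +kernel
def t1353 : ftest (NN 1353) 13 6119 = true := by decide +kernel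
def t1451 : ftest (NN 1451) 13 7186 = true := by decide +kernel
def t1487 : ftest (NN 1487) 13 8038 = true := by decide +kernel
def t2287 : ftest (NN 2287) 13 4522 = true := by decide +kernel
def t2881 : ftest (NN 2881) 13 4501 = true := by decide +kernel
def t2916 : ftest (NN 2916) 12 3317 = true := by decide +kernel
def t3040 : ftest (NN 3040) 12 2189 = true := by decide +kernel
def t3065 : ftest (NN 3065) 13 6549 = true := by decide +kernel
def t3183 : ftest (NN 3183) 13 5122 = true := by decide +kernel
def t3464 : ftest (NN 3464) 12 3030 = true := by decide +kernel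
def t3631 : ftest (NN 3631) 12 3899 = true := by decide +kernel
def t3738 : ftest (NN 3738) 11 1782 = true := by decide +kernel
def t3804 : ftest (NN 3804) 12 2500 = true := by decide +kernel
def t3839 : ftest (NN 3839) 13 5307 = true := by decide +kernel
def t4253 : ftest (NN 4253) 12 3715 = true := by decide +kernel
def t4296 : ftest (NN 4296) 12 2482 = true := by decide +kernel
def t4336 : ftest (NN 4336) 11 1633 = true := by decide +kernel
def t4675 : ftest (NN 4675) 12 2958 = true := by decide +kernel
def t4712 : ftest (NN 4712) 12 2192 = true := by decide +kernel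
def t5074 : ftest (NN 5074) 11 1288 = true := by decide +kernel
def t5108 : ftest (NN 5108) 11 1480 = true := by decide +kernel
def t6098 : ftest (NN 6098) 10 933 = true := by decide +kernel
def t6371 : ftest (NN 6371) 11 1923 = true := by decide +kernel
def t6483 : ftest (NN 6483) 11 1218 = true := by decide +kernel
def t7067 : ftest (NN 7067) 10 833 = true := by decide +kernel
def t7161 : ftest (NN 7161) 10 578 = true := by decide +kernel
def t7266 : ftest (NN 7266) 8 214 = true := by decide +kernel
def t7289 : ftest (NN 7289) 9 426 = true := by decide +kernel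
def t7418 : ftest (NN 7418) 7 105 = true := by decide +kernel

theorem all : ∀ k ∈ [42, 496, 600, 1178, 1340, 1353, 1451, 1487, 2287, 2881, 2916, 3040, 3065, 3183, 3464, 3631, 3738, 3804, 3839, 4253, 4296, 4336, 4675, 4712, 5074, 5108, 6098, 6371, 6483, 7067, 7161, 7266, 7289, 7418], ¬ (NN k).Prime := by
  intro k hk
  simp only [List.mem_cons, List.not_mem_nil, or_false] at hk
  rcases hk with rfl | rfl | rfl | rfl | rfl | rfl | rfl | rfl | rfl | rfl | rfl | rfl | rfl | rfl | rfl | rfl | rfl | rfl | rfl | rfl | rfl | rfl | rfl | rfl | rfl | rfl | rfl | rfl | rfl | rfl | rfl | rfl | rfl | rfl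
  · exact not_prime_of_ftest _ _ _ t42
  · exact not_prime_of_ftest _ _ _ t496
  · exact not_prime_of_ftest _ _ _ t600
  · exact not_prime_of_ftest _ _ _ t1178
  · exact not_prime_of_ftest _ _ _ t1340
  · exact not_prime_of_ftest _ _ _ t1353
  · exact not_prime_of_ftest _ _ _ t1451
  · exact not_prime_of_ftest _ _ _ t1487
  · exact not_prime_of_ftest _ _ _ t2287
  · exact not_prime_of_ftest _ _ _ t2881
  · exact not_prime_of_ftest _ _ _ t2916
  · exact not_prime_of_ftest _ _ _ t3040
  · exact not_prime_of_ftest _ _ _ t3065
  · exact not_prime_of_ftest _ _ _ t3183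
  · exact not_prime_of_ftest _ _ _ t3464
  · exact not_prime_of_ftest _ _ _ t3631
  · exact not_prime_of_ftest _ _ _ t3738
  · exact not_prime_of_ftest _ _ _ t3804
  · exact not_prime_of_ftest _ _ _ t3839
  · exact not_prime_of_ftest _ _ _ t4253
  · exact not_prime_of_ftest _ _ _ t4296
  · exact not_prime_of_ftest _ _ _ t4336
  · exact not_prime_of_ftest _ _ _ t4675
  · exact not_prime_of_ftest _ _ _ t4712
  · exact not_prime_of_ftest _ _ _ t5074
  · exact not_prime_of_ftest _ _ _ t5108
  · exact not_prime_of_ftest _ _ _ t6098
  · exact not_prime_of_ftest _ _ _ t6371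
  · exact not_prime_of_ftest _ _ _ t6483
  · exact not_prime_of_ftest _ _ _ t7067
  · exact not_prime_of_ftest _ _ _ t7161
  · exact not_prime_of_ftest _ _ _ t7266
  · exact not_prime_of_ftest _ _ _ t7289
  · exact not_prime_of_ftest _ _ _ t7418

end Pool.Agent.Q256.TotB.P9
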