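import Pool.Agent.Q256.TotB.Def

set_option autoImplicit false

/-! Fermat tests to the base 2 (part 15). -/

namespace Pool.Agent.Q256.TotB.P15

open Pool.Agent.Q256.Tot

def t156 : ftest (NN 156) 12 3386 = true := by decide +kernel
def t330 : ftest (NN 330) 12 3580 = true := by decide +kernel
def t645 : ftest (NN 645) 13 7890 = true := by decide +kernel
def t1300 : ftest (NN 1300) 12 2692 = true := by decide +kernel
def t1356 : ftest (NN 1356) 12 3748 = true := by decide +kernel
def t1441 : ftest (NN 1441) 13 5369 = true := by decide +kernel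
def t1705 : ftest (NN 1705) 13 5026 = true := by decide +kernel
def t2034 : ftest (NN 2034) 12 3816 = true := by decide +kernel
def t2122 : ftest (NN 2122) 12 2516 = true := by decide +kernel
def t2259 : ftest (NN 2259) 13 7322 = true := by decide +kernel
def t2271 : ftest (NN 2271) 13 6826 = true := by decide +kernel
def t2317 : ftest (NN 2317) 13 4194 = true := by decide +kernel
def t2620 : ftest (NN 2620) 12 2250 = true := by decide +kernel
def t2849 : ftest (NN 2849) 13 5821 = true := by decide +kernel
def t2884 : ftest (NN 2884) 11 1933 = true := by decide +kernel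
def t3333 : ftest (NN 3333) 13 4636 = true := by decide +kernel
def t3787 : ftest (NN 3787) 12 3212 = true := by decide +kernel
def t4086 : ftest (NN 4086) 12 2449 = true := by decide +kernel
def t4189 : ftest (NN 4189) 12 3070 = true := by decide +kernel
def t4204 : ftest (NN 4204) 11 1663 = true := by decide +kernel
def t4575 : ftest (NN 4575) 13 4349 = true := by decide +kernel
def t4747 : ftest (NN 4747) 12 2890 = true := by decide +kernel
def t4960 : ftest (NN 4960) 11 1328 = true := by decide +kernel
def t5304 : ftest (NN 5304) 11 1765 = true := by decide +kernel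
def t5476 : ftest (NN 5476) 10 996 = true := by decide +kernel
def t5520 : ftest (NN 5520) 11 1432 = true := by decide +kernel
def t6191 : ftest (NN 6191) 11 1986 = true := by decide +kernel
def t6215 : ftest (NN 6215) 12 2163 = true := by decide +kernel
def t6438 : ftest (NN 6438) 10 698 = true := by decide +kernel
def t6445 : ftest (NN 6445) 11 1198 = true := by decide +kernel
def t6972 : ftest (NN 6972) 9 385 = true := by decide +kernel
def t6983 : ftest (NN 6983) 10 704 = true := by decide +kernel
def t7018 : ftest (NN 7018) 8 232 = true := by decide +kernel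
def t7500 : ftest (NN 7500) 7 66 = true := by decide +kernel

theorem all : ∀ k ∈ [156, 330, 645, 1300, 1356, 1441, 1705, 2034, 2122, 2259, 2271, 2317, 2620, 2849, 2884, 3333, 3787, 4086, 4189, 4204, 4575, 4747, 4960, 5304, 5476, 5520, 6191, 6215, 6438, 6445, 6972, 6983, 7018, 7500], ¬ (NN k).Prime := by
  intro k hk
  simp only [List.mem_cons, List.not_mem_nil, or_false] at hk
  rcases hk with rfl | rfl | rfl | rfl | rfl | rfl | rfl | rfl | rfl | rfl | rfl | rfl | rfl | rfl | rfl | rfl | rfl | rfl | rfl | rfl | rfl | rfl | rfl | rfl | rfl | rfl | rfl | rfl | rfl | rfl | rfl | rfl | rfl | rfl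
  · exact not_prime_of_ftest _ _ _ t156
  · exact not_prime_of_ftest _ _ _ t330
  · exact not_prime_of_ftest _ _ _ t645
  · exact not_prime_of_ftest _ _ _ t1300
  · exact not_prime_of_ftest _ _ _ t1356
  · exact not_prime_of_ftest _ _ _ t1441
  · exact not_prime_of_ftest _ _ _ t1705
  · exact not_prime_of_ftest _ _ _ t2034
  · exact not_prime_of_ftest _ _ _ t2122
  · exact not_prime_of_ftest _ _ _ t2259
  · exact not_prime_of_ftest _ _ _ t2271
  · exact not_prime_of_ftest _ _ _ t2317
  · exact not_prime_of_ftest _ _ _ t2620
  · exact not_prime_of_ftest _ _ _ t2849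
  · exact not_prime_of_ftest _ _ _ t2884
  · exact not_prime_of_ftest _ _ _ t3333
  · exact not_prime_of_ftest _ _ _ t3787
  · exact not_prime_of_ftest _ _ _ t4086
  · exact not_prime_of_ftest _ _ _ t4189
  · exact not_prime_of_ftest _ _ _ t4204
  · exact not_prime_of_ftest _ _ _ t4575
  · exact not_prime_of_ftest _ _ _ t4747
  · exact not_prime_of_ftest _ _ _ t4960
  · exact not_prime_of_ftest _ _ _ t5304
  · exact not_prime_of_ftest _ _ _ t5476
  · exact not_prime_of_ftest _ _ _ t5520
  · exact not_prime_of_ftest _ _ _ t6191
  · exact not_prime_of_ftest _ _ _ t6215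
  · exact not_prime_of_ftest _ _ _ t6438
  · exact not_prime_of_ftest _ _ _ t6445
  · exact not_prime_of_ftest _ _ _ t6972
  · exact not_prime_of_ftest _ _ _ t6983
  · exact not_prime_of_ftest _ _ _ t7018
  · exact not_prime_of_ftest _ _ _ t7500

end Pool.Agent.Q256.TotB.P15
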